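import Pool.Agent.Work.MP_707689_an.Hy.Main
import Pool.Agent.Work.MP_707689_an.N.Defs

-- merged part: Pool.Agent.Work.MP_707689_an.N.Approx
section
/-! Dyadic decomposition of an operator of the Lorentz ideal. -/

open MeasureTheory Set Filter Topology
open scoped ENNReal NNReal InnerProductSpace

namespace Pool.Agent.Work.MP_707689_an.N

variable {H : Type} [NormedAddCommGroup H] [InnerProductSpace ℂ H] [CompleteSpace H] {d : ℕ}
  {a : Fin d → ℝ} {c : ℝ}

theorem apy_of_seq (ha : ∑ j, a j = 1) (hc : 0 < c) (hc1 : c < 1) {K : H →L[ℂ] H} (F : ℕ → H →L[ℂ] H) (r r' : ℕ → ℕ)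
    (R : ℕ → ℝ) (hF : ∀ m, Rk (r m) (F m)) (hD : ∀ m, Rk (r' m) (F (m + 1) - F m))
    (hR : ∀ m, 1 ≤ R m) (hr : ∀ m, (r' m : ℝ) ≤ R m)
    (hs : Summable fun m => ‖F (m + 1) - F m‖ * R m ^ c)
    (hl : Tendsto F atTop (𝓝 K)) : Apy a c K := by
  intro ε hε
  have h0 : 0 < 1 - c := sub_pos.2 hc1
  have hT : ∀ m, 1 ≤ R m ^ c := fun m => Real.one_le_rpow (hR m) hc.le
  have h1 := ENNReal.tendsto_ofReal
    (tendsto_sum_nat_add fun m => (1 / c + 1 / (1 - c)) * (‖F (m + 1) - F m‖ * R m ^ c))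
  have h2 : Tendsto (fun m => ‖K - F m‖ₑ) atTop (𝓝 0) := by
    simpa using (hl.const_sub K).enorm
  rw [ENNReal.ofReal_zero] at h1
  obtain ⟨n, hn1, hn2⟩ := ((ENNReal.tendsto_nhds_zero.mp h1 ε hε).and
    (ENNReal.tendsto_nhds_zero.mp h2 ε hε)).exists
  refine ⟨F n, r n, hF n, hn2, fun M v w hv hw => ?_⟩
  have hs' : Summable fun m => ‖F (m + n + 1) - F (m + n)‖ * R (m + n) ^ c :=
    (summable_nat_add_iff (f := fun m => ‖F (m + 1) - F m‖ * R m ^ c) n).mpr hs
  have hsum : HasSum (fun m => F (m + n + 1) - F (m + n)) (K - F n) := by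
    rw [hasSum_iff_tendsto_nat_of_summable_norm (hs'.of_nonneg_of_le (fun _ => norm_nonneg _)
      fun m => le_mul_of_one_le_right (norm_nonneg _) (hT _))]
    have e : ∀ j, ∑ m ∈ Finset.range j, (F (m + n + 1) - F (m + n)) = F (j + n) - F n := by
      intro j
      simpa [add_right_comm] using Finset.sum_range_sub (fun m => F (m + n)) j
    simp only [e]
    exact (hl.comp (tendsto_add_atTop_nat n)).sub_const _
  have h3 : ∀ k, ‖⟪w k, (K - F n) (v k)⟫_ℂ‖ₑ ≤
      ∑' m, ‖⟪w k, (F (m + n + 1) - F (m + n)) (v k)⟫_ℂ‖ₑ := fun k => by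
    have := (hsum.mapL ((innerSL ℂ (w k)).comp (ContinuousLinearMap.apply ℂ H (v k)))).tsum_eq
    exact le_trans (le_of_eq (congrArg _ this.symm)) enorm_tsum_le_tsum_enorm
  refine (Psi_tsum (fun m => meas_pair hv hw _) h3).trans ?_
  refine (ENNReal.tsum_le_tsum fun m => Psi_rank ha hc hc1 hv hw (hD (m + n))
    (one_pos.trans_le (hR _)) (hr _)).trans ?_
  rw [ENNReal.tsum_mul_left, ← ENNReal.ofReal_tsum_of_nonneg
    (fun m => by have := hT (m + n); positivity) (hs'.mul_left _)]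
  gcongr

theorem apy_of_summable (ha : ∑ j, a j = 1) (hc : 0 < c) (hc1 : c < 1) {K : H →L[ℂ] H}
    (h : Summable fun k : ℕ => sval K k * ((k : ℝ) + 1) ^ (c - 1)) : Apy a c K := by
  have hne : ∀ k, {r : ℝ | ∃ F : H →L[ℂ] H, Rk k F ∧ r = ‖K - F‖}.Nonempty := fun k =>
    ⟨_, 0, by simp [Rk], rfl⟩
  have hlb : ∀ k, ∀ r ∈ {r : ℝ | ∃ F : H →L[ℂ] H, Rk k F ∧ r = ‖K - F‖}, 0 ≤ r := by
    rintro k _ ⟨F, -, rfl⟩
    exact norm_nonneg _
  have h0 := sval_nonneg K
  have hanti : Antitone (sval K) := fun k l hkl => csInf_le_csInf ⟨0, hlb l⟩ (hne k)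
    fun _ ⟨F, hF, e⟩ => ⟨F, le_trans hF (by exact_mod_cast hkl), e⟩
  have hcd := (summable_condensed_iff_of_nonneg
    (f := fun k : ℕ => sval K k * ((k : ℝ) + 1) ^ (c - 1))
    (fun k => mul_nonneg (h0 k) (by positivity)) (fun k l _ hkl =>
      mul_le_mul (hanti hkl) (Real.rpow_le_rpow_of_nonpos (by positivity)
        (by have : (k : ℝ) ≤ l := by exact_mod_cast hkl
            linarith) (by linarith)) (by positivity) (h0 k))).mpr h
  have hex : ∀ m : ℕ, ∃ F : H →L[ℂ] H, Rk (2 ^ m) F ∧ ‖K - F‖ ≤ sval K (2 ^ m) + (1 / 4) ^ m := by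
    intro m
    obtain ⟨_, ⟨F, hF, rfl⟩, hlt⟩ := exists_lt_of_csInf_lt (hne (2 ^ m))
      (show sval K (2 ^ m) < sval K (2 ^ m) + (1 / 4) ^ m by simp)
    exact ⟨F, hF, hlt.le⟩
  choose F hF hFn using hex
  set R : ℕ → ℝ := fun m => 3 * 2 ^ m with hR
  have hp : ∀ m : ℕ, (1 : ℝ) ≤ 2 ^ m := fun m => one_le_pow₀ one_le_two
  have hR1 : ∀ m, 1 ≤ R m := fun m => by
    have := hp m
    simp only [hR]
    linarith
  have hT1 : ∀ m, 1 ≤ R m ^ c := fun m => Real.one_le_rpow (hR1 m) hc.le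
  have hT3 : ∀ m, R m ^ c ≤ 3 * 2 ^ m := fun m => by
    simpa using Real.rpow_le_rpow_of_exponent_le (hR1 m) hc1.le
  have hT4 : ∀ m, R m ^ c ≤ 3 * (2 ^ m * ((2 : ℝ) ^ m + 1) ^ (c - 1)) := fun m => by
    have h1 : R m ^ (c - 1) ≤ ((2 : ℝ) ^ m + 1) ^ (c - 1) :=
      Real.rpow_le_rpow_of_nonpos (by positivity) (by have := hp m; simp only [hR]; linarith)
        (by linarith)
    have h2 : R m ^ c = R m * R m ^ (c - 1) := by
      rw [Real.rpow_sub_one (one_pos.trans_le (hR1 m)).ne', mul_div_cancel₀ _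
        (one_pos.trans_le (hR1 m)).ne']
    rw [h2, ← mul_assoc]
    exact mul_le_mul_of_nonneg_left h1 (zero_le_one.trans (hR1 m))
  have hb : Summable fun m => (sval K (2 ^ m) + (1 / 4) ^ m) * R m ^ c := by
    simp only [add_mul]
    refine Summable.add ((hcd.mul_left 3).of_nonneg_of_le
      (fun m => mul_nonneg (h0 _) (zero_le_one.trans (hT1 m))) fun m => ?_)
      ((summable_geometric_two.mul_left 3).of_nonneg_of_le (fun m => by
        have := hT1 m; positivity) fun m => ?_)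
    · refine (mul_le_mul_of_nonneg_left (hT4 m) (h0 _)).trans (le_of_eq ?_)
      push_cast
      ring
    · refine (mul_le_mul_of_nonneg_left (hT3 m) (by positivity)).trans (le_of_eq ?_)
      rw [mul_left_comm, ← mul_pow]
      norm_num
  refine apy_of_seq ha hc hc1 F (fun m => 2 ^ m) (fun m => 2 ^ (m + 1) + 2 ^ m) R hF
    (fun m => (hF _).sub (hF _)) hR1 (fun m => le_of_eq (by simp only [hR]; push_cast; ring))
    ((hb.mul_left 2).of_nonneg_of_le
      (fun m => mul_nonneg (norm_nonneg _) (zero_le_one.trans (hT1 m))) fun m => ?_) ?_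
  · rw [← mul_assoc]
    refine mul_le_mul_of_nonneg_right ?_ (zero_le_one.trans (hT1 m))
    have h1 : sval K (2 ^ (m + 1)) ≤ sval K (2 ^ m) :=
      hanti (Nat.pow_le_pow_right two_pos m.le_succ)
    have h2 : (1 / 4 : ℝ) ^ (m + 1) ≤ (1 / 4) ^ m :=
      pow_le_pow_of_le_one (by norm_num) (by norm_num) m.le_succ
    have h3 := norm_sub_le (K - F m) (K - F (m + 1))
    rw [sub_sub_sub_cancel_left] at h3
    linarith [hFn m, hFn (m + 1)]
  · rw [tendsto_iff_norm_sub_tendsto_zero]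
    refine squeeze_zero (fun _ => norm_nonneg _) (fun m => ?_) hb.tendsto_atTop_zero
    rw [norm_sub_rev]
    exact (hFn m).trans (le_mul_of_one_le_right (by have := h0 (2 ^ m); positivity) (hT1 m))

theorem apy_of_lor (ha : ∑ j, a j = 1) (hc : 0 < c) (hc1 : c < 1) {p : ℝ} (hp : c ≤ 1 / p) {K : H →L[ℂ] H}
    (h : InLor p K) : Apy a c K :=
  apy_of_summable ha hc hc1 (h.2.of_nonneg_of_le
    (fun k => mul_nonneg (sval_nonneg K k) (by positivity)) fun k =>
      mul_le_mul_of_nonneg_left (Real.rpow_le_rpow_of_exponent_le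
        (by have : (0 : ℝ) ≤ k := k.cast_nonneg
            linarith) (by linarith)) (sval_nonneg K k))

theorem Apy.cpt {K : H →L[ℂ] H} (h : Apy a c K) : K ∈ cpt H := by
  refine EMetric.mem_closure_iff.2 fun ε hε => ?_
  obtain ⟨δ, h0, h1⟩ := exists_between hε
  obtain ⟨F, r, hF, h2, -⟩ := h δ h0
  exact ⟨F, ⟨r, hF⟩, by rw [edist_eq_enorm_sub]; exact h2.trans_lt h1⟩

omit [CompleteSpace H] in
theorem Apy.neg {A B : H →L[ℂ] H} (h : Apy a c (A - B)) : Apy a c (B - A) := by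
  intro ε hε
  obtain ⟨F, r, hF, h1, h2⟩ := h ε hε
  have e : B - A - -F = -(A - B - F) := by abel
  refine ⟨-F, r, by simpa using hF.left (-1), by rwa [e, enorm_neg], fun M v w hv hw => ?_⟩
  simpa only [e, neg_apply, inner_neg_right, enorm_neg] using h2 M v w hv hw

end Pool.Agent.Work.MP_707689_an.N
end

-- merged part: Pool.Agent.Work.MP_707689_an.N.Key
section
/-! The basic estimate along the anisotropic curves in `n`-space. -/

open MeasureTheory Set Filter Topology Complex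
open scoped ENNReal NNReal InnerProductSpace

namespace Pool.Agent.Work.MP_707689_an.N

variable {H : Type} [NormedAddCommGroup H] [InnerProductSpace ℂ H] [CompleteSpace H] {n : ℕ}
  {a : Fin n → ℝ}

/-- the family `v` solves the evolution equation along the curves -/
def Flow (a : Fin n → ℝ) (A : Fin n → H →L[ℂ] H) (v : (Fin n → ℝ) → H) : Prop :=
  ∀ (u : Fin n → ℝ) (s : ℝ), HasDerivAt (fun s : ℝ => v (gam a s u))
    (I • ∑ j, ((a j * gam a s u j : ℝ) : ℂ) • A j (v (gam a s u))) s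

theorem gam_bot (ha : ∀ j, 0 < a j) (u : Fin n → ℝ) : Tendsto (fun s => gam a s u) atBot (𝓝 0) :=
  tendsto_pi_nhds.2 fun j => by
    simpa [gam] using
      (Real.tendsto_exp_atBot.comp (tendsto_id.const_mul_atBot (ha j))).mul_const (u j)

theorem key' (hs : ∑ j, a j = 1) (ha : ∀ j, 0 < a j) (ha1 : ∀ j, a j < 1)
    {A B : Fin n → H →L[ℂ] H} {U V : H →L[ℂ] H} (hA : ∀ j, IsSelfAdjoint (A j))
    (hc : ∀ j, Commute (B j) U)
    (hK : ∀ ε : ℝ≥0∞, 0 < ε → ∃ F r, Rk r F ∧ ‖U - V - F‖ₑ ≤ ε) {M : ℝ≥0}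
    {v w : (Fin n → ℝ) → H}
    (hv : Frame M v) (hw : Frame M w) (dv : Flow a A v) (dw : Flow a A w) {c₀ : ℂ}
    (hn : ∀ k, ⟪w k, V (v k)⟫_ℂ = c₀) :
    ‖⟪w 0, U (v 0)⟫_ℂ - c₀‖ₑ ≤ ∑ j,
      (Psi a (a j) (fun k => ‖⟪ContinuousLinearMap.adjoint U (w k), (A j - B j) (v k)⟫_ℂ‖ₑ) +
      Psi a (a j) (fun k => ‖⟪w k, (A j - B j) (U (v k))⟫_ℂ‖ₑ)) := by
  set α : (H →L[ℂ] H) → (Fin n → ℝ) → ℂ := fun K k =>
    ⟪ContinuousLinearMap.adjoint U (w k), K (v k)⟫_ℂ with hα
  set β : (H →L[ℂ] H) → (Fin n → ℝ) → ℂ := fun K k => ⟪w k, K (U (v k))⟫_ℂ with hβ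
  have cv := hv.cont
  have cw := hw.cont
  have ca : ∀ K, Continuous (α K) := fun K => by rw [hα]; fun_prop
  have cb : ∀ K, Continuous (β K) := fun K => by rw [hβ]; fun_prop
  set g : (H →L[ℂ] H) → (Fin n → ℝ) → ℝ≥0∞ := fun K k => ‖α K k‖ₑ + ‖β K k‖ₑ with hg
  have mg : ∀ K, Measurable (g K) := fun K => (ca _).measurable.enorm.add (cb _).measurable.enorm
  set G : ℝ → (Fin n → ℝ) → ℝ≥0∞ := fun x u =>
    ∑ j, ENNReal.ofReal (Real.exp (a j * x)) * g (A j - B j) (gam a x u) with hG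
  have mG : Measurable fun z : ℝ × (Fin n → ℝ) => G z.1 z.2 := Finset.measurable_sum _ fun j _ =>
    ((meas_exp (a j)).comp measurable_fst).fun_mul ((mg _).comp (gam_cont a).measurable)
  set ψ : (Fin n → ℝ) → ℂ := fun k => ⟪w k, U (v k)⟫_ℂ with hψ
  have cψ : Continuous ψ := by rw [hψ]; fun_prop
  have swap : ∀ j, ∀ x y : H, ⟪x, U (A j y)⟫_ℂ - ⟪A j x, U y⟫_ℂ =
      ⟪ContinuousLinearMap.adjoint U x, (A j - B j) y⟫_ℂ - ⟪x, (A j - B j) (U y)⟫_ℂ := by
    intro j x y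
    have e : B j (U y) = U (B j y) := congrArg (fun T : H →L[ℂ] H => T y) (hc j).eq
    simp only [ContinuousLinearMap.adjoint_inner_left, sa_inner (hA j), sub_apply,
      inner_sub_right, e]
    ring
  have ray : ∀ u ∈ Q n, ∀ s : ℝ, ‖ψ (gam a s u) - ψ 0‖ₑ ≤ ∫⁻ x, G x u := by
    intro u hu s
    have cg : Continuous fun x : ℝ => gam a x u := (gam_cont a).comp (Continuous.prodMk_left u)
    refine le_of_tendsto' (((cψ.tendsto 0).comp (gam_bot ha u)).const_sub
      (ψ (gam a s u))).enorm fun t => ?_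
    have h1 := ftc_le (f := fun x : ℝ => ψ (gam a x u)) (f' := fun x : ℝ =>
      I * ∑ j, ((a j * gam a x u j : ℝ) : ℂ) *
        (α (A j - B j) (gam a x u) - β (A j - B j) (gam a x u))) (fun x => ?_)
      (continuous_const.mul (continuous_finsetSum _ fun j _ => by
        have := ca (A j - B j)
        have := cb (A j - B j)
        fun_prop)) t s
    · refine h1.trans ((setLIntegral_le_lintegral _ _).trans (lintegral_mono fun x => ?_))
      rw [enorm_mul, ← ofReal_norm I, norm_I, ENNReal.ofReal_one, one_mul]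
      exact (enorm_sum_le _ _).trans (Finset.sum_le_sum fun j _ =>
        wt_le (ha j) (ha1 j).le (Real.exp_pos _) ⟨hu.1 j, hu.2 j⟩ _ _)
    · have h3 := (dw u x).inner ℂ ((U.restrictScalars ℝ).hasFDerivAt.comp_hasDerivAt x (dv u x))
      refine HasDerivAt.congr_deriv h3 ?_
      simp only [hα, hβ, ← swap, Function.comp, ContinuousLinearMap.coe_restrictScalars', map_smul,
        map_sum, inner_smul_left, inner_smul_right, inner_sum, sum_inner, conj_I, conj_ofReal,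
        mul_sub, Finset.sum_sub_distrib]
      ring
  refine le_trans (b := ∑ j, Psi a (a j) (g (A j - B j))) ?_
    (Finset.sum_le_sum fun j _ => Psi_add (ca _).measurable.enorm fun k => le_rfl)
  refine ENNReal.le_of_forall_pos_le_add fun δ hδ _ => ?_
  obtain ⟨s, hb⟩ := boundary hs hK hv hw (ε := δ) (by exact_mod_cast hδ)
  calc _ = ∫⁻ _ in Q n, ‖ψ 0 - c₀‖ₑ := by simp [volQ, hψ]
    _ ≤ ∫⁻ u in Q n, (‖⟪w (gam a s u), (U - V) (v (gam a s u))⟫_ℂ‖ₑ + ∫⁻ x, G x u) := by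
        refine setLIntegral_mono' measQ fun u hu => le_trans ?_ (add_le_add le_rfl (ray u hu s))
        rw [sub_apply, inner_sub_right, hn, enorm_sub_rev (ψ (gam a s u)) (ψ 0), add_comm]
        exact le_trans (le_of_eq (by rw [sub_add_sub_cancel])) (enorm_add_le _ _)
    _ = (∫⁻ u in Q n, ‖⟪w (gam a s u), (U - V) (v (gam a s u))⟫_ℂ‖ₑ) +
          ∫⁻ x, ∫⁻ u in Q n, G x u := by
        rw [lintegral_add_left (f := fun u => ‖⟪w (gam a s u), (U - V) (v (gam a s u))⟫_ℂ‖ₑ)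
          ((meas_pair hv hw _).comp (gam_meas a s)),
          lintegral_lintegral_swap (f := G) mG.aemeasurable]
    _ ≤ _ := by
        rw [add_comm]
        refine add_le_add (le_of_eq ?_) hb
        simp only [Psi]
        rw [← lintegral_finsetSum _ fun j _ => av_meas (mg _)]
        refine lintegral_congr fun x => ?_
        rw [hG, lintegral_finsetSum (f := fun j u => ENNReal.ofReal (Real.exp (a j * x)) *
          g (A j - B j) (gam a x u)) _ fun j _ => ((mg _).comp (gam_meas a x)).const_mul _]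
        exact Finset.sum_congr rfl fun j _ => lintegral_const_mul
          (f := fun u => g (A j - B j) (gam a x u)) _ ((mg _).comp (gam_meas a x))

end Pool.Agent.Work.MP_707689_an.N
end

-- merged part: Pool.Agent.Work.MP_707689_an.N.Cyclic
section
/-! Characters of `n`-space, the Plancherel identity and the existence of frames. -/

open MeasureTheory Set Filter Topology Complex FourierTransform
open scoped ENNReal NNReal InnerProductSpace ComplexConjugate Real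

namespace Pool.Agent.Work.MP_707689_an.N

variable {n : ℕ}

/-- the characters of `n`-space -/
noncomputable def ch (k p : Fin n → ℝ) : ℂ := cexp (I * ((∑ j, k j * p j : ℝ) : ℂ))

theorem lint_smul {g : (Fin n → ℝ) → ℝ≥0∞} (hg : Measurable g) {l : ℝ} (hl : 0 < l) :
    ∫⁻ u, g (l • u) = ENNReal.ofReal (l ^ n)⁻¹ * ∫⁻ k, g k := by
  rw [← lintegral_map hg (measurable_const_smul l), Measure.map_addHaar_smul _ hl.ne',
    lintegral_smul_measure, abs_of_pos (by positivity)]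
  simp

theorem plancherel {f : (Fin n → ℝ) → ℂ} (h1 : Integrable f) (h2 : MemLp f 2) :
    ∫⁻ k, ‖∫ p, ch (-k) p * f p‖ₑ ^ 2 = ENNReal.ofReal ((2 * π) ^ n) * ∫⁻ p, ‖f p‖ₑ ^ 2 := by
  set e := (MeasurableEquiv.toLp 2 (Fin n → ℝ)).symm
  have mp : MeasurePreserving e volume volume := PiLp.volume_preserving_ofLp (Fin n)
  have h := eLpNorm_fourier (f := f ∘ e) (mp.integrable_comp_of_integrable h1)
    (h2.comp_measurePreserving mp)
  have hc : Continuous (𝓕 (f ∘ e)) := VectorFourier.fourierIntegral_continuous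
    Real.continuous_fourierChar (innerSL ℝ).continuous₂ (mp.integrable_comp_of_integrable h1)
  have mG : Measurable fun k => ‖𝓕 (f ∘ e) (e.symm k)‖ₑ ^ 2 :=
    (hc.measurable.comp e.symm.measurable).enorm.pow_const 2
  have e1 : ∀ k : Fin n → ℝ, ∫ p, ch (-k) p * f p = 𝓕 (f ∘ e) (e.symm ((2 * π)⁻¹ • k)) := by
    intro k
    rw [Real.fourier_eq', ← mp.integral_comp' (fun p => ch (-k) p * f p)]
    congr 1
    funext z
    simp only [ch, smul_eq_mul, Function.comp]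
    congr 2
    rw [mul_comm]
    congr 2
    simp only [PiLp.inner_apply, Finset.mul_sum]
    refine Finset.sum_congr rfl fun j _ => ?_
    simp [e]
    field_simp
  simp only [e1]
  rw [lint_smul mG (by positivity), mp.symm.lintegral_comp (f := fun z => ‖𝓕 (f ∘ e) z‖ₑ ^ 2)
    (hc.measurable.enorm.pow_const 2), lint_sq, h, eLpNorm_comp_measurePreserving h2.1 mp, lint_sq,
    inv_pow, inv_inv]

theorem ch_add (k l p : Fin n → ℝ) : ch (k + l) p = ch k p * ch l p := by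
  simp only [ch, Pi.add_apply, add_mul, Finset.sum_add_distrib, ofReal_add, mul_add, exp_add]

theorem ch_neg (k p : Fin n → ℝ) : ch (-k) p = conj (ch k p) := by
  rw [ch, ch, ← exp_conj, map_mul, conj_I, conj_ofReal]
  simp only [Pi.neg_apply, neg_mul, Finset.sum_neg_distrib, ofReal_neg, mul_neg]

theorem ch_norm (k p : Fin n → ℝ) : ‖ch k p‖ = 1 := norm_exp_I_mul_ofReal _

theorem ch_cont (k : Fin n → ℝ) : Continuous (ch k) := by unfold ch; fun_prop

/-- trigonometric polynomials -/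
noncomputable def tp : ((Fin n → ℝ) →₀ ℂ) →ₗ[ℂ] ((Fin n → ℝ) → ℂ) := Finsupp.linearCombination ℂ ch

theorem tp_single (k : Fin n → ℝ) (c : ℂ) (p : Fin n → ℝ) : tp (Finsupp.single k c) p = c * ch k p := by
  simp [tp]

theorem tp_bdd (d : (Fin n → ℝ) →₀ ℂ) : Continuous (tp d) ∧ ∃ C, ∀ p, ‖tp d p‖ ≤ C := by
  induction d using Finsupp.induction_linear with
  | zero => exact ⟨by simpa using continuous_zero, 0, by simp⟩
  | add f g hf hg =>
    obtain ⟨h1, C, h2⟩ := hf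
    obtain ⟨h3, D, h4⟩ := hg
    rw [map_add]
    exact ⟨h1.add h3, C + D, fun p => (norm_add_le _ _).trans (add_le_add (h2 p) (h4 p))⟩
  | single k c =>
    rw [funext (tp_single k c)]
    exact ⟨continuous_const.mul (ch_cont k), ‖c‖, fun p => by simp [ch_norm]⟩

theorem int_bdd {μ : Measure (Fin n → ℝ)} [IsFiniteMeasure μ] {a b : (Fin n → ℝ) → ℂ}
    (ha : Continuous a ∧ ∃ C, ∀ p, ‖a p‖ ≤ C) (hb : Continuous b ∧ ∃ C, ∀ p, ‖b p‖ ≤ C) :
    Integrable (fun p => a p * b p) μ := by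
  obtain ⟨h1, C, h2⟩ := ha
  obtain ⟨h3, D, h4⟩ := hb
  refine Integrable.of_bound (h1.mul h3).aestronglyMeasurable (C * D)
    (Eventually.of_forall fun p => ?_)
  rw [norm_mul]
  exact mul_le_mul (h2 p) (h4 p) (norm_nonneg _) ((norm_nonneg _).trans (h2 p))

theorem ch_bdd (k : Fin n → ℝ) : Continuous (ch k) ∧ ∃ C, ∀ p, ‖ch k p‖ ≤ C :=
  ⟨ch_cont k, 1, fun p => (ch_norm k p).le⟩

theorem conj_bdd {a : (Fin n → ℝ) → ℂ} (ha : Continuous a ∧ ∃ C, ∀ p, ‖a p‖ ≤ C) :
    Continuous (fun p => conj (a p)) ∧ ∃ C, ∀ p, ‖conj (a p)‖ ≤ C :=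
  ⟨continuous_conj.comp ha.1, by simpa using ha.2⟩

theorem fourier_bound {μ : Measure (Fin n → ℝ)} [IsFiniteMeasure μ] (hμ : μ ≪ volume) (R : ℝ≥0)
    {g : (Fin n → ℝ) → ℂ} (hg : Continuous g ∧ ∃ C, ∀ p, ‖g p‖ ≤ C) :
    ∫⁻ k, ‖∫ p in {p | μ.rnDeriv volume p ≤ R}, ch (-k) p * g p ∂μ‖ₑ ^ 2 ≤
      ENNReal.ofReal ((2 * π) ^ n) * R * ∫⁻ p, ‖g p‖ₑ ^ 2 ∂μ := by
  set D := {p | μ.rnDeriv volume p ≤ R} with hD
  have mρ := Measure.measurable_rnDeriv μ volume
  have mD : MeasurableSet D := measurableSet_le mρ measurable_const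
  set F : (Fin n → ℝ) → ℂ := fun p => (μ.rnDeriv volume p).toReal • D.indicator g p with hF
  have ig : Integrable g μ := by
    simpa using int_bdd (μ := μ) hg (b := fun _ => 1) ⟨continuous_const, 1, by simp⟩
  have iF : Integrable F := (integrable_rnDeriv_smul_iff hμ).mpr (ig.indicator mD)
  have h1 : ∫⁻ p, ‖F p‖ₑ ^ 2 ≤ R * ∫⁻ p, ‖g p‖ₑ ^ 2 ∂μ := by
    have mg : Measurable fun p => ‖g p‖ₑ ^ 2 := hg.1.measurable.enorm.pow_const 2
    rw [← lintegral_rnDeriv_mul hμ mg.aemeasurable, ← lintegral_const_mul _ (mρ.fun_mul mg)]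
    refine lintegral_mono fun p => ?_
    by_cases hp : p ∈ D
    · have hp' : μ.rnDeriv volume p ≤ R := hp
      simp only [hF, indicator_of_mem hp, enorm_smul, mul_pow]
      rw [Real.enorm_toReal (ne_top_of_le_ne_top ENNReal.coe_ne_top hp'), sq, mul_assoc]
      gcongr
    · simp [hF, hp]
  have h2 : ∫⁻ p, ‖g p‖ₑ ^ 2 ∂μ ≠ ∞ := by
    obtain ⟨C, hC⟩ := hg.2
    refine ne_top_of_le_ne_top ?_ (lintegral_mono (g := fun _ => ENNReal.ofReal C ^ 2) fun p => ?_)
    · rw [lintegral_const]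
      finiteness
    · simp only [← ofReal_norm]
      gcongr
      exact hC p
  have mF : MemLp F 2 volume := ⟨iF.1, by
    have h3 : eLpNorm F 2 volume ^ 2 < ∞ := by
      rw [← lint_sq]
      exact h1.trans_lt (by finiteness)
    simpa using ENNReal.pow_lt_top_iff.mp h3⟩
  have e : ∀ k, ∫ p in D, ch (-k) p * g p ∂μ = ∫ p, ch (-k) p * F p := fun k => by
    rw [← integral_indicator mD, ← integral_rnDeriv_smul hμ]
    congr 1
    funext p
    by_cases hp : p ∈ D <;> simp [hF, hp, mul_left_comm]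
  simp only [e]
  rw [plancherel iF mF, mul_assoc]
  gcongr

variable {H : Type} [NormedAddCommGroup H] [InnerProductSpace ℂ H] [CompleteSpace H]

theorem exists_frame {E : (Fin n → ℝ) → H →L[ℂ] H} (hE0 : E 0 = 1) (hE : ∀ k l, E (k + l) = E k * E l)
    (hEi : ∀ k x y, ⟪E k x, y⟫_ℂ = ⟪x, E (-k) y⟫_ℂ) (hEc : Continuous E)
    (hEn : ∀ k x, ‖E k x‖ = ‖x‖) (x : H) {μ : Measure (Fin n → ℝ)} [IsFiniteMeasure μ]
    (hμ : μ ≪ volume) (hx : ∀ k, ⟪x, E k x⟫_ℂ = ∫ p, ch k p ∂μ) {ε : ℝ} (hε : 0 < ε) :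
    ∃ (ξ : H) (M : ℝ≥0), ‖x - ξ‖ ≤ ε ∧ Frame M fun k => E k ξ := by
  have mρ := Measure.measurable_rnDeriv μ volume
  have mD : ∀ R : ℕ, MeasurableSet {p | μ.rnDeriv volume p ≤ R} := fun R =>
    measurableSet_le mρ measurable_const
  obtain ⟨R, hR⟩ : ∃ R : ℕ, μ {p | μ.rnDeriv volume p ≤ R}ᶜ ≤ ENNReal.ofReal ε ^ 2 := by
    have h1 := tendsto_measure_iInter_atTop (μ := μ)
      (s := fun R : ℕ => {p | μ.rnDeriv volume p ≤ R}ᶜ) (fun R => (mD R).compl.nullMeasurableSet)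
      (fun R S h => compl_subset_compl.mpr fun p hp =>
        le_trans (b := (R : ℝ≥0∞)) hp (by exact_mod_cast h))
      ⟨0, measure_ne_top _ _⟩
    have h2 : μ (⋂ R : ℕ, {p | μ.rnDeriv volume p ≤ R}ᶜ) = 0 := by
      refine hμ (measure_mono_null (fun p hp => ?_) (ae_iff.mp (Measure.rnDeriv_lt_top μ volume)))
      intro h
      obtain ⟨n, hn⟩ := ENNReal.exists_nat_gt (ne_of_lt h)
      exact mem_iInter.mp hp n hn.le
    rw [h2] at h1
    exact (ENNReal.tendsto_nhds_zero.mp h1 _ (ENNReal.pow_pos (by simpa using hε) 2)).exists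
  set D := {p | μ.rnDeriv volume p ≤ R} with hD
  set T : ((Fin n → ℝ) →₀ ℂ) →ₗ[ℂ] H := Finsupp.linearCombination ℂ fun k => E k x with hT
  have Ts : ∀ k c, T (Finsupp.single k c) = c • E k x := fun k c => by simp [hT]
  have id1 : ∀ (ν : Measure (Fin n → ℝ)) [IsFiniteMeasure ν] (y : H),
      (∀ k, ⟪y, E k x⟫_ℂ = ∫ p, ch k p ∂ν) → ∀ k d,
      ⟪E k y, T d⟫_ℂ = ∫ p, ch (-k) p * tp d p ∂ν := by
    intro ν _ y hy k d
    induction d using Finsupp.induction_linear with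
    | zero => simp
    | add f g hf hg =>
      simp only [map_add, inner_add_right, hf, hg, Pi.add_apply, mul_add]
      rw [integral_add (int_bdd (ch_bdd _) (tp_bdd _)) (int_bdd (ch_bdd _) (tp_bdd _))]
    | single l c =>
      rw [Ts, inner_smul_right, hEi, ← mul_apply_eq_comp, ← hE, hy,
        ← integral_const_mul]
      simp only [tp_single, ch_add, mul_left_comm]
  have id2 : ∀ d' d, ⟪T d', T d⟫_ℂ = ∫ p, conj (tp d' p) * tp d p ∂μ := by
    intro d' d
    induction d' using Finsupp.induction_linear with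
    | zero => simp
    | add f g hf hg =>
      simp only [map_add, inner_add_left, hf, hg, Pi.add_apply, add_mul]
      rw [integral_add (int_bdd (conj_bdd (tp_bdd _)) (tp_bdd _))
        (int_bdd (conj_bdd (tp_bdd _)) (tp_bdd _))]
    | single l c =>
      rw [Ts, inner_smul_left, id1 μ x hx, ← integral_const_mul]
      simp only [tp_single, ch_neg, map_mul, mul_assoc]
  have id3 : ∀ d, ∫⁻ p, ‖tp d p‖ₑ ^ 2 ∂μ = ‖T d‖ₑ ^ 2 := by
    intro d
    have h1 := id2 d d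
    simp only [inner_self_eq_norm_sq_to_K, conj_mul', ← ofReal_pow, integral_complex_ofReal,
      coe_algebraMap, ofReal_inj] at h1
    have h2 := (int_bdd (μ := μ) (tp_bdd d) (tp_bdd d)).norm
    simp only [← sq, norm_pow] at h2
    rw [← ofReal_norm, ← ENNReal.ofReal_pow (norm_nonneg _), h1,
      ofReal_integral_eq_lintegral_ofReal h2 (Eventually.of_forall fun p => by positivity)]
    simp only [ENNReal.ofReal_pow (norm_nonneg _), ofReal_norm]
  set K := (LinearMap.range T).topologicalClosure with hK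
  have TK : ∀ d, T d ∈ K := fun d => Submodule.le_topologicalClosure _ (LinearMap.mem_range_self _ d)
  have hdense : DenseRange (T.codRestrict K TK) := by
    rw [DenseRange, Subtype.dense_iff, ← range_comp]
    exact subset_rfl
  set f : ((Fin n → ℝ) →₀ ℂ) →ₗ[ℂ] ℂ := Finsupp.linearCombination ℂ fun k => ∫ p in Dᶜ, ch k p ∂μ
    with hf
  have itp : ∀ (ν : Measure (Fin n → ℝ)) [IsFiniteMeasure ν] d, Integrable (tp d) ν := fun ν _ d => by
    simpa using int_bdd (μ := ν) (tp_bdd d) (b := fun _ => 1) ⟨continuous_const, 1, by simp⟩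
  have fe : ∀ d, f d = ∫ p in Dᶜ, tp d p ∂μ := by
    intro d
    induction d using Finsupp.induction_linear with
    | zero => simp
    | add f g hf hg =>
      simp only [map_add, hf, hg, Pi.add_apply]
      rw [integral_add (itp _ _) (itp _ _)]
    | single l c => simp [hf, tp_single, integral_const_mul]
  have fb : ∀ d, ‖f d‖ ≤ ε * ‖T.codRestrict K TK d‖ := by
    intro d
    have h1 := cs (μ := μ.restrict Dᶜ) (a := fun _ => 1) measurable_const
      (tp_bdd d).1.measurable.enorm (A := ENNReal.ofReal ε) (B := ‖T d‖ₑ) (by simpa using hR)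
      ((setLIntegral_le_lintegral _ _).trans (id3 d).le)
    simp only [one_mul] at h1
    have h2 := (enorm_integral_le_lintegral_enorm _).trans h1
    rwa [← fe, ← ofReal_norm, ← ofReal_norm, ← ENNReal.ofReal_mul hε.le,
      ENNReal.ofReal_le_ofReal_iff (by positivity)] at h2
  set ζ : K := (InnerProductSpace.toDual ℂ K).symm (f.extendOfNorm (T.codRestrict K TK)) with hζ
  have hζ1 : ‖(ζ : H)‖ ≤ ε := by
    rw [← Submodule.coe_norm, hζ, LinearIsometryEquiv.norm_map]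
    exact LinearMap.opNorm_extendOfNorm_le hdense hε.le fb
  have hζ2 : ∀ d, ⟪(ζ : H), T d⟫_ℂ = f d := fun d => by
    rw [← LinearMap.extendOfNorm_eq hdense ⟨ε, fb⟩ d, ← InnerProductSpace.toDual_symm_apply]
    rfl
  have hξ : ∀ k, ⟪x - ζ, E k x⟫_ℂ = ∫ p in D, ch k p ∂μ := fun k => by
    have h1 := hζ2 (Finsupp.single k 1)
    have h2 := itp μ (Finsupp.single k 1)
    rw [Ts, one_smul, fe] at h1
    simp only [funext (tp_single k 1), one_mul] at h1 h2
    rw [inner_sub_left, hx, h1, ← integral_add_compl (mD R) h2, add_sub_cancel_right]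
  have xK : x - ζ ∈ K := K.sub_mem (by simpa [Ts, hE0] using TK (Finsupp.single 0 1)) ζ.2
  have EK : ∀ k, ∀ y ∈ K, E k y ∈ K := by
    intro k y hy
    refine map_mem_closure (E k).continuous hy ?_
    rintro _ ⟨d, rfl⟩
    induction d using Finsupp.induction_linear with
    | zero => simp
    | add f g hf hg =>
      rw [map_add, map_add]
      exact Submodule.add_mem _ hf hg
    | single l c =>
      exact ⟨Finsupp.single (k + l) c, by rw [Ts, Ts, map_smul, hE, mul_apply_eq_comp]⟩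
  set c : ℝ≥0 := Real.toNNReal ((2 * π) ^ n) * R with hc
  have cv : Continuous fun k => E k (x - ζ) := by fun_prop
  refine ⟨x - ζ, ‖x - ζ‖₊ + c + 1, by simpa using hζ1, cv, fun k => ?_, fun h => ?_⟩
  · rw [← ofReal_norm, hEn, ofReal_norm, enorm_eq_nnnorm, ENNReal.coe_le_coe, add_assoc]
    exact le_self_add
  have hb : ∀ y ∈ K, ∫⁻ k, ‖⟪y, E k (x - ζ)⟫_ℂ‖ₑ ^ 2 ≤ c * ‖y‖ₑ ^ 2 := by
    intro y hy
    obtain ⟨u, hu, hl⟩ := mem_closure_iff_seq_limit.mp hy
    have h1 : ∀ n, ∫⁻ k, ‖⟪u n, E k (x - ζ)⟫_ℂ‖ₑ ^ 2 ≤ c * ‖u n‖ₑ ^ 2 := by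
      intro n
      obtain ⟨d, hd⟩ := hu n
      have h2 := fourier_bound hμ R (tp_bdd d)
      rw [id3] at h2
      rw [← hd]
      refine le_trans (le_of_eq ?_) h2
      congr 1
      funext k
      rw [← ofReal_norm, norm_inner_symm, ofReal_norm, id1 (μ.restrict D) _ hξ]
      rfl
    have h3 : Tendsto (fun n => (c : ℝ≥0∞) * ‖u n‖ₑ ^ 2) atTop (𝓝 (c * ‖y‖ₑ ^ 2)) :=
      ENNReal.Tendsto.const_mul (ENNReal.Tendsto.pow hl.enorm) (Or.inr ENNReal.coe_ne_top)
    have h4 : ∀ k, Tendsto (fun n => ‖⟪u n, E k (x - ζ)⟫_ℂ‖ₑ ^ 2) atTop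
        (𝓝 (‖⟪y, E k (x - ζ)⟫_ℂ‖ₑ ^ 2)) := fun k =>
      ENNReal.Tendsto.pow (hl.inner tendsto_const_nhds).enorm
    simp only [← fun k => (h4 k).liminf_eq, ← h3.liminf_eq]
    exact (lintegral_liminf_le fun n =>
      (continuous_const.inner cv).measurable.enorm.pow_const 2).trans
      (liminf_le_liminf (Eventually.of_forall h1))
  have e : ∀ k, ⟪h, E k (x - ζ)⟫_ℂ = ⟪K.starProjection h, E k (x - ζ)⟫_ℂ := fun k => by
    rw [← sub_eq_zero, ← inner_sub_left]
    exact K.starProjection_inner_eq_zero _ _ (EK k _ xK)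
  simp only [e]
  refine (hb _ (K.starProjection_apply_mem h)).trans ?_
  rw [mul_pow]
  gcongr
  · rw [← ENNReal.coe_pow, ENNReal.coe_le_coe]
    exact le_trans (le_trans le_add_self le_self_add) (le_self_pow₀ le_add_self two_ne_zero)
  · exact enorm_le_iff_norm_le.mpr (K.norm_starProjection_apply_le h)

end Pool.Agent.Work.MP_707689_an.N
end

-- merged part: Pool.Agent.Work.MP_707689_an.N.Spec
section
/-! Spectral integrals: the Borel functional calculus from quadratic forms. -/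

open MeasureTheory Set Filter Topology Complex
open scoped ENNReal NNReal InnerProductSpace ComplexConjugate ComplexStarModule

namespace Pool.Agent.Work.MP_707689_an.N

variable {H : Type} [NormedAddCommGroup H] [InnerProductSpace ℂ H] [CompleteSpace H]
  {X : Type} [MeasurableSpace X]

/-- a projection valued measure with its scalar measures -/
structure PX (E : Set X → H →L[ℂ] H) (μ : H → Measure X) : Prop where
  sa : ∀ S, MeasurableSet S → IsSelfAdjoint (E S)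
  inter : ∀ S T, MeasurableSet S → MeasurableSet T → E (S ∩ T) = E S * E T
  univ : E univ = 1
  app : ∀ x S, MeasurableSet S → μ x S = ‖E S x‖ₑ ^ 2

/-- `T` is the integral of the measurable function `f` -/
structure IC (μ : H → Measure X) (f : X → ℂ) (T : H →L[ℂ] H) : Prop where
  meas : Measurable f
  int : ∀ x, Integrable f (μ x)
  eq : ∀ x, ⟪x, T x⟫_ℂ = ∫ p, f p ∂μ x

variable {E : Set X → H →L[ℂ] H} {μ : H → Measure X} {f g : X → ℂ} {T U A₁ A₂ : H →L[ℂ] H}
  {g₁ g₂ : X → ℝ}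

omit [CompleteSpace H] in
theorem ext_form (h : ∀ x, ⟪x, T x⟫_ℂ = ⟪x, U x⟫_ℂ) : T = U :=
  ContinuousLinearMap.coe_injective ((ext_inner_map (T : H →ₗ[ℂ] H) U).1 fun x => by
    rw [← inner_conj_symm, ← inner_conj_symm ((U : H →ₗ[ℂ] H) x)]
    exact congrArg _ (h x))

namespace IC

omit [CompleteSpace H] in
theorem ext (h : IC μ f T) (h' : IC μ f U) : T = U :=
  ext_form fun x => (h.eq x).trans (h'.eq x).symm

omit [CompleteSpace H] in
theorem congr (h : IC μ f T) (e : ∀ p, f p = g p) : IC μ g T := funext e ▸ h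

omit [CompleteSpace H] in
theorem add (h : IC μ f T) (h' : IC μ g U) : IC μ (fun p => f p + g p) (T + U) :=
  ⟨h.meas.add h'.meas, fun x => (h.int x).add (h'.int x), fun x => by
    rw [add_apply, inner_add_right, h.eq, h'.eq, integral_add (h.int x) (h'.int x)]⟩

omit [CompleteSpace H] in
theorem smul (h : IC μ f T) (c : ℂ) : IC μ (fun p => c * f p) (c • T) :=
  ⟨h.meas.const_mul c, fun x => (h.int x).const_mul c, fun x => by
    rw [smul_apply, inner_smul_right, h.eq, integral_const_mul]⟩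

omit [CompleteSpace H] in
theorem sub (h : IC μ f T) (h' : IC μ g U) : IC μ (fun p => f p - g p) (T - U) := by
  simpa [sub_eq_add_neg] using h.add (h'.smul (-1))

theorem star (h : IC μ f T) : IC μ (fun p => conj (f p)) (star T) :=
  ⟨continuous_conj.measurable.comp h.meas, fun x => conjCLE.integrable_comp_iff.2 (h.int x),
    fun x => by rw [← inner_conj_symm, star_inner, h.eq, integral_conj]⟩

omit [CompleteSpace H] in
theorem sum {ι : Type} (s : Finset ι) {f : ι → X → ℂ} {T : ι → H →L[ℂ] H}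
    (h : ∀ j, IC μ (f j) (T j)) : IC μ (fun p => ∑ j ∈ s, f j p) (∑ j ∈ s, T j) :=
  ⟨Finset.measurable_sum _ fun j _ => (h j).meas,
    fun x => integrable_finsetSum _ fun j _ => (h j).int x, fun x => by
    rw [sum_apply, inner_sum, integral_finsetSum _ fun j _ => (h j).int x]
    exact Finset.sum_congr rfl fun j _ => (h j).eq x⟩

theorem sa (h : IC μ (fun p => (g₁ p : ℂ)) T) : IsSelfAdjoint T :=
  (h.star.congr fun _ => conj_ofReal _).ext h

omit [CompleteSpace H] in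
theorem measR (h : IC μ (fun p => (g₁ p : ℂ)) T) : Measurable g₁ := measurable_re.comp h.meas

theorem re (h : IC μ f T) : IC μ (fun p => ((f p).re : ℂ)) ((1 / 2 : ℂ) • (T + Star.star T)) :=
  ((h.add h.star).smul _).congr fun p => by rw [re_eq_add_conj]; ring

theorem im (h : IC μ f T) :
    IC μ (fun p => ((f p).im : ℂ)) ((1 / (2 * I) : ℂ) • (T - Star.star T)) :=
  ((h.sub h.star).smul _).congr fun p => by rw [im_eq_sub_conj]; ring

omit [CompleteSpace H] in
theorem push {φ : X → ℝ × ℝ} (hφ : Measurable φ) {c : ℝ × ℝ → ℝ} (hc : Measurable c)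
    (h : IC μ (fun p => (c (φ p) : ℂ)) T) : Intg (fun x => (μ x).map φ) c T := fun x =>
  ⟨(integrable_map_measure hc.aestronglyMeasurable hφ.aemeasurable).2 (h.int x).re, by
    rw [h.eq, integral_map hφ.aemeasurable hc.aestronglyMeasurable, integral_complex_ofReal]⟩

end IC

namespace PX

theorem push (h : PX E μ) {φ : X → ℝ × ℝ} (hφ : Measurable φ) :
    PV (fun S => E (φ ⁻¹' S)) fun x => (μ x).map φ :=
  ⟨fun _ hS => h.sa _ (hφ hS), fun _ _ hS hT => h.inter _ _ (hφ hS) (hφ hT), h.univ,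
    fun x _ hS => by rw [Measure.map_apply hφ hS, h.app x _ (hφ hS)]⟩

theorem fin (h : PX E μ) (x : H) : IsFiniteMeasure (μ x) :=
  ⟨by rw [h.app x _ MeasurableSet.univ]; finiteness⟩

theorem ind (h : PX E μ) {S : Set X} (hS : MeasurableSet S) :
    IC μ (S.indicator fun _ => 1) (E S) := by
  refine ⟨measurable_const.indicator hS, fun x => ?_, fun x => ?_⟩
  · have := h.fin x
    exact (integrable_const _).indicator hS
  · have e : E S x = E S (E S x) := by rw [← mul_apply_eq_comp, ← h.inter S S hS hS, inter_self]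
    rw [integral_indicator_const _ hS, Measure.real, h.app x S hS, ENNReal.toReal_pow, toReal_enorm]
    conv_lhs => rw [e, ← sa_inner (h.sa S hS), inner_self_eq_norm_sq_to_K]
    simp

theorem one (h : PX E μ) : IC μ (fun _ => 1) 1 :=
  h.univ ▸ (h.ind MeasurableSet.univ).congr fun _ => by simp

theorem four (h : PX E μ) (h₁ : IC μ (fun p => (g₁ p : ℂ)) A₁) (h₂ : IC μ (fun p => (g₂ p : ℂ)) A₂)
    (s t : ℝ) (x : H) :
    ⟪x, (ex A₁ s * ex A₂ t) x⟫_ℂ = ∫ p, cexp (I * ((s * g₁ p + t * g₂ p : ℝ) : ℂ)) ∂μ x := by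
  have hφ := h₁.measR.prodMk h₂.measR
  rw [(h.push hφ).fourier (IC.push hφ measurable_fst h₁) (IC.push hφ measurable_snd h₂) h₁.sa h₂.sa
    x (s, t), integral_map hφ.aemeasurable
      (Pool.Agent.Work.MP_707689_an.ch_cont _).aestronglyMeasurable]
  rfl

theorem commR (h : PX E μ) (h₁ : IC μ (fun p => (g₁ p : ℂ)) A₁)
    (h₂ : IC μ (fun p => (g₂ p : ℂ)) A₂) : Commute A₁ A₂ := by
  have d : ∀ {A B : H →L[ℂ] H}, (∀ s, Commute (ex A s) B) → Commute A B := fun {A B} hc => by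
    have h1 := (ex_deriv (A := A) 0).mul_const B
    have h2 := (ex_deriv (A := A) 0).const_mul B
    rw [funext fun s => (hc s).eq] at h1
    have h3 := h1.unique h2
    rw [ex_zero, mul_one, smul_mul_assoc, mul_smul_comm] at h3
    exact smul_right_injective _ I_ne_zero h3
  refine d fun s => (d fun t => ext_form fun x => ?_).symm
  rw [h.four h₁ h₂, h.four h₂ h₁]
  simp only [add_comm]

theorem bdd (h : PX E μ) (h₁ : IC μ (fun p => (g₁ p : ℂ)) A₁) (x : H) :
    ∀ᵐ p ∂μ x, |g₁ p| ≤ ‖A₁‖ := by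
  have hφ := h₁.measR.prodMk h₁.measR
  exact ae_of_ae_map hφ.aemeasurable
    ((h.push hφ).supp (IC.push hφ measurable_fst h₁) measurable_fst x)

theorem mulR (h : PX E μ) (h₁ : IC μ (fun p => (g₁ p : ℂ)) A₁)
    (h₂ : IC μ (fun p => (g₂ p : ℂ)) A₂) : IC μ (fun p => (g₁ p : ℂ) * g₂ p) (A₁ * A₂) := by
  have hφ := h₁.measR.prodMk h₂.measR
  have hP : Pair A₁ A₂ := ⟨h₁.sa, h₂.sa, h.commR h₁ h₂⟩
  refine ⟨h₁.meas.mul h₂.meas, fun x => (h₂.int x).bdd_mul h₁.meas.aestronglyMeasurable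
    ((h.bdd h₁ x).mono fun p hp => by rwa [norm_real]), fun x => ?_⟩
  have c₁ : Continuous fun y : ℝ × ℝ => (y.1 : ℂ) := by fun_prop
  have c₂ : Continuous fun y : ℝ × ℝ => (y.2 : ℂ) := by fun_prop
  have e₁ : fc (fun y => (y.1 : ℂ)) A₁ A₂ = A₁ := by
    rw [fc, cfc_re_id (A₁ + I • A₂) hP.normal]
    simp [hP.s₁.coe_realPart, hP.s₂.imaginaryPart]
  have e₂ : fc (fun y => (y.2 : ℂ)) A₁ A₂ = A₂ := by
    rw [fc, cfc_im_id (A₁ + I • A₂) hP.normal]
    simp [hP.s₂.coe_realPart, hP.s₁.imaginaryPart]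
  have h3 := (h.push hφ).fc_int (IC.push hφ measurable_fst h₁) (IC.push hφ measurable_snd h₂) hP
    (c₁.mul c₂) x
  rwa [integral_map hφ.aemeasurable (c₁.mul c₂).aestronglyMeasurable, Pi.mul_def, fc_mul c₁ c₂,
    e₁, e₂] at h3

theorem mul (h : PX E μ) (h₁ : IC μ f T) (h₂ : IC μ g U) : IC μ (fun p => f p * g p) (T * U) := by
  have e : ∀ {f : X → ℂ} {T : H →L[ℂ] H}, IC μ f T → T = (1 / 2 : ℂ) • (T + star T) +
      I • (1 / (2 * I) : ℂ) • (T - star T) := fun hT =>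
    hT.ext ((hT.re.add (hT.im.smul I)).congr fun p => by rw [mul_comm, re_add_im])
  have h3 := ((h.mulR h₁.re h₂.re).add ((h.mulR h₁.re h₂.im).smul I)).add
    (((h.mulR h₁.im h₂.re).add ((h.mulR h₁.im h₂.im).smul I)).smul I)
  rw [← mul_smul_comm, ← mul_smul_comm I, ← mul_add, ← mul_add, ← e h₂, ← smul_mul_assoc,
    ← add_mul, ← e h₁] at h3
  refine h3.congr fun p => ?_
  conv_rhs => rw [← re_add_im (f p), ← re_add_im (g p)]
  ring

theorem comm (h : PX E μ) (h₁ : IC μ f T) (h₂ : IC μ g U) : Commute T U :=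
  (h.mul h₁ h₂).ext ((h.mul h₂ h₁).congr fun _ => mul_comm _ _)

theorem exp (h : PX E μ) (h₁ : IC μ (fun p => (g₁ p : ℂ)) A₁) :
    IC μ (fun p => cexp (I * g₁ p)) (ex A₁ 1) := by
  have m : Measurable fun p => cexp (I * g₁ p) := (h₁.meas.const_mul I).cexp
  refine ⟨m, fun x => ?_, fun x => ?_⟩
  · have := h.fin x
    exact .of_bound m.aestronglyMeasurable 1 (.of_forall fun p => (norm_exp_I_mul_ofReal _).le)
  · simpa [ex_zero] using h.four h₁ h₁ 1 0 x

theorem unit (h : PX E μ) (h₁ : IC μ f T) (h1 : ∀ p, ‖f p‖ = 1) :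
    star T * T = 1 ∧ T * star T = 1 :=
  ⟨((h.mul h₁.star h₁).congr fun p => by simp [conj_mul', h1]).ext h.one,
    ((h.mul h₁ h₁.star).congr fun p => by simp [mul_conj', h1]).ext h.one⟩

theorem norm_sq (h : PX E μ) (h₁ : IC μ f T) (x : H) : ‖T x‖ ^ 2 = ∫ p, ‖f p‖ ^ 2 ∂μ x := by
  have h2 := (h.mul h₁.star h₁).eq x
  rw [mul_apply_eq_comp, ← inner_conj_symm, star_inner, inner_conj_symm,
    inner_self_eq_norm_sq_to_K] at h2
  simp only [conj_mul', ← ofReal_pow, integral_complex_ofReal, coe_algebraMap] at h2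
  exact ofReal_injective h2

end PX

end Pool.Agent.Work.MP_707689_an.N
end

-- merged part: Pool.Agent.Work.MP_707689_an.N.Main
section
/-! The hybrid wave operator for `n`-tuples along families with compact differences. -/

open MeasureTheory Set Filter Topology Complex
open scoped ENNReal NNReal InnerProductSpace ComplexConjugate Real FourierTransform

namespace Pool.Agent.Work.MP_707689_an.N

variable {H : Type} [NormedAddCommGroup H] [InnerProductSpace ℂ H] [CompleteSpace H] {n : ℕ}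

/-- the absolutely continuous subspace -/
def acS (E : Set (Fin n → ℝ) → H →L[ℂ] H) : Submodule ℂ H where
  carrier := {x | ∀ S, MeasurableSet S → volume S = 0 → E S x = 0}
  zero_mem' := fun S _ _ => map_zero _
  add_mem' := fun {a b} ha hb S h1 h2 => by rw [map_add, ha S h1 h2, hb S h1 h2, add_zero]
  smul_mem' := fun c a ha S h1 h2 => by rw [map_smul, ha S h1 h2, smul_zero]

variable {A B : Fin n → H →L[ℂ] H} {E E' : Set (Fin n → ℝ) → H →L[ℂ] H}
  {μ μ' : H → Measure (Fin n → ℝ)} {ι κ : Type} {l : Filter ι} {l' : Filter κ}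
  {f : ι → (Fin n → ℝ) → ℂ} {g : κ → (Fin n → ℝ) → ℂ} {S T : ι → H →L[ℂ] H}
  {S' T' : κ → H →L[ℂ] H} {a : Fin n → ℝ}

omit [CompleteSpace H] in
theorem acS_closed : IsClosed (acS E : Set H) := by
  have : (acS E : Set H) = ⋂ S, ⋂ _ : MeasurableSet S, ⋂ _ : volume S = 0, {x | E S x = 0} := by
    ext x
    simp only [mem_iInter]
    rfl
  rw [this]
  exact isClosed_iInter fun S => isClosed_iInter fun _ => isClosed_iInter fun _ =>
    isClosed_eq (E S).continuous continuous_const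

instance : CompleteSpace (acS E) := acS_closed.completeSpace_coe

theorem PX.ac (h : PX E μ) {x : H} (hx : x ∈ acS E) : μ x ≪ volume :=
  Measure.AbsolutelyContinuous.mk fun S h1 h2 => by simp [h.app x S h1, hx S h1 h2]

theorem PX.map_ac (h : PX E μ) {φ : (Fin n → ℝ) → ℂ} {U : H →L[ℂ] H} (hU : IC μ φ U) {x : H}
    (hx : x ∈ acS E) : U x ∈ acS E := fun S h1 h2 => by
  have e : E S (U x) = U (E S x) := DFunLike.congr_fun (h.comm (h.ind h1) hU).eq x
  rw [e, hx S h1 h2, map_zero]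

theorem PX.null (h : PX E μ) (hS : ∀ i, IC μ (f i) (S i))
    (hz : ∀ z ∈ acS E, Tendsto (fun i => ∫ y, f i y ∂μ z) l (𝓝 0)) {x : H} (hx : x ∈ acS E)
    (y : H) : Tendsto (fun i => ⟪y, S i x⟫_ℂ) l (𝓝 0) := by
  have d : ∀ z ∈ acS E, Tendsto (fun i => ⟪S i z, z⟫_ℂ) l (𝓝 0) := fun z h1 => by
    rw [tendsto_zero_iff_norm_tendsto_zero]
    refine (tendsto_zero_iff_norm_tendsto_zero.1 (hz z h1)).congr fun i => ?_
    rw [← (hS i).eq, norm_inner_symm]
  have hy := (acS E).starProjection_apply_mem y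
  have t := ((((d _ (add_mem hy hx)).sub (d _ (sub_mem hy hx))).add
    ((d _ (add_mem hy (Submodule.smul_mem _ I hx))).const_mul I)).sub
    ((d _ (sub_mem hy (Submodule.smul_mem _ I hx))).const_mul I)).div_const 4
  simp only [mul_zero, sub_zero, add_zero, zero_div] at t
  rw [tendsto_zero_iff_norm_tendsto_zero] at t ⊢
  refine t.congr fun i => ?_
  have e := inner_map_polarization (S i : H →ₗ[ℂ] H) ((acS E).starProjection y) x
  simp only [ContinuousLinearMap.coe_coe] at e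
  rw [← e, ← Submodule.inner_starProjection_left_eq_right, Submodule.starProjection_eq_self_iff.2
    (h.map_ac (hS i) hx), norm_inner_symm]

/-- a tuple with its spectral measures -/
structure Sp (A : Fin n → H →L[ℂ] H) (E : Set (Fin n → ℝ) → H →L[ℂ] H)
    (μ : H → Measure (Fin n → ℝ)) : Prop where
  pv : PX E μ
  int : ∀ j, IC μ (fun p => (p j : ℂ)) (A j)

/-- the unitary group of the tuple -/
noncomputable def Ex (A : Fin n → H →L[ℂ] H) (k : Fin n → ℝ) : H →L[ℂ] H :=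
  ex (∑ j, (k j : ℂ) • A j) 1

theorem Sp.ch (h : Sp A E μ) (k : Fin n → ℝ) : IC μ (ch k) (Ex A k) :=
  h.pv.exp (g₁ := fun p : Fin n → ℝ => ∑ j, k j * p j)
    ((IC.sum Finset.univ fun j => (h.int j).smul (k j)).congr fun p => by push_cast; rfl)

theorem Ex_zero : Ex A 0 = 1 := by simp [Ex, ex]

theorem Sp.add (h : Sp A E μ) (k k' : Fin n → ℝ) : Ex A (k + k') = Ex A k * Ex A k' :=
  ((h.ch (k + k')).congr (ch_add k k')).ext (h.pv.mul (h.ch k) (h.ch k'))

theorem Sp.star (h : Sp A E μ) (k : Fin n → ℝ) : star (Ex A k) = Ex A (-k) :=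
  (h.ch k).star.ext ((h.ch (-k)).congr (ch_neg k))

theorem Ex_cont : Continuous (Ex A) := by
  let : NormedAlgebra ℚ (H →L[ℂ] H) := NormedAlgebra.restrictScalars ℚ ℂ _
  unfold Ex ex
  exact NormedSpace.exp_continuous.comp (by fun_prop)

theorem Ex_cpt (hK : ∀ j, A j - B j ∈ cpt H) (k : Fin n → ℝ) : Ex A k - Ex B k ∈ cpt H := by
  refine cpt_ex ?_ 1
  rw [← Finset.sum_sub_distrib]
  exact Submodule.sum_mem _ fun j _ => by
    rw [← smul_sub]
    exact Submodule.smul_mem _ _ (hK j)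

theorem Sp.flow (h : Sp A E μ) (ξ : H) : Flow a A fun k => Ex A k ξ := by
  intro u s
  have d1 : HasDerivAt (fun t : ℝ => (I * ((1 : ℝ) : ℂ)) •
      ∑ j, (((gam a t u - gam a s u) j : ℝ) : ℂ) • A j)
      ((I * ((1 : ℝ) : ℂ)) • ∑ j, ((a j * gam a s u j : ℝ) : ℂ) • A j) s := by
    refine HasDerivAt.const_smul (I * ((1 : ℝ) : ℂ)) (HasDerivAt.fun_sum fun j _ => ?_)
    refine HasDerivAt.smul_const (HasDerivAt.ofReal_comp ?_) (A j)
    exact (((hasDerivAt_const_mul (a j)).exp.mul_const (u j)).sub_const _).congr_deriv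
      (by simp only [gam]; ring)
  have d2 := (hasFDerivAt_exp_zero (𝕂 := ℝ) (𝔸 := H →L[ℂ] H)).comp_hasDerivAt_of_eq s d1 (by simp)
  have e : ∀ t, Ex A (gam a t u) ξ = Ex A (gam a t u - gam a s u) (Ex A (gam a s u) ξ) := fun t => by
    rw [← mul_apply_eq_comp, ← h.add, sub_add_cancel]
  rw [funext e]
  refine (deriv_app d2 _).congr_deriv ?_
  simp

theorem riemann {ν : Measure (Fin n → ℝ)} [IsFiniteMeasure ν] (h : ν ≪ volume) (j : Fin n) :
    Tendsto (fun t : ℝ => ∫ p, ch (Pi.single j t) p ∂ν) atTop (𝓝 0) := by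
  have h1 : ν.map (Function.eval j) ≪ (volume : Measure ℝ) :=
    (h.map (measurable_pi_apply j)).trans
      (Measure.quasiMeasurePreserving_eval (fun _ => volume) j).absolutelyContinuous
  have h2 : Tendsto (fun t : ℝ => -(t / (2 * π))) atTop (cocompact ℝ) :=
    (tendsto_neg_atTop_atBot.comp (tendsto_id.atTop_div_const (by positivity))).mono_right
      atBot_le_cocompact
  refine ((Real.tendsto_integral_exp_smul_cocompact fun v =>
    ((((ν.map (Function.eval j)).rnDeriv volume v).toReal : ℝ) : ℂ)).comp h2).congr fun t => ?_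
  have e : ∫ p, ch (Pi.single j t) p ∂ν =
      ∫ v : ℝ, cexp (I * (t * v : ℝ)) ∂ν.map (Function.eval j) := by
    rw [integral_map (measurable_pi_apply j).aemeasurable (by fun_prop)]
    simp [ch, Pi.single_apply]
  rw [e, ← integral_rnDeriv_smul h1]
  refine integral_congr_ae (.of_forall fun v => ?_)
  simp only [Circle.smul_def, Real.fourierChar_apply, smul_eq_mul, real_smul]
  rw [mul_comm]
  congr 2
  have := Real.pi_pos
  rw [mul_comm I]
  congr 2
  field_simp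

theorem Sp.frame (h : Sp A E μ) {x : H} (hx : x ∈ acS E) {ε : ℝ} (hε : 0 < ε) :
    ∃ ξ ∈ acS E, ∃ M : ℝ≥0, ‖x - ξ‖ ≤ ε ∧ Frame M fun k => Ex A k ξ := by
  have := h.pv.fin x
  obtain ⟨ξ, M, h1, h2⟩ := exists_frame (E := Ex A) Ex_zero h.add
    (fun k x y => by rw [← star_inner, h.star, neg_neg]) Ex_cont
    (fun k => norm_of_unit (h.pv.unit (h.ch k) (ch_norm k)).1) x (h.pv.ac hx)
    (fun k => (h.ch k).eq x) hε
  refine ⟨(acS E).starProjection ξ, (acS E).starProjection_apply_mem ξ, M, ?_, ?_⟩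
  · rw [← Submodule.starProjection_eq_self_iff.2 hx, ← map_sub]
    exact ((acS E).norm_starProjection_apply_le _).trans h1
  · have e : ∀ k, (acS E).starProjection (Ex A k ξ) = Ex A k ((acS E).starProjection ξ) :=
      fun k => by
      refine Submodule.eq_starProjection_of_mem_orthogonal
        (h.pv.map_ac (h.ch k) ((acS E).starProjection_apply_mem ξ)) fun w hw => ?_
      rw [← map_sub, ← star_inner]
      exact (acS E).sub_starProjection_mem_orthogonal ξ _ (h.pv.map_ac (h.ch k).star hw)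
    simpa only [e] using h2.map (acS E).starProjection_norm_le

/-- unimodular families with their integrals on both sides and compact differences -/
structure Fam (E : Set (Fin n → ℝ) → H →L[ℂ] H) (μ μ' : H → Measure (Fin n → ℝ)) {ι : Type}
    (l : Filter ι) (f : ι → (Fin n → ℝ) → ℂ) (S T : ι → H →L[ℂ] H) : Prop where
  iS : ∀ i, IC μ (f i) (S i)
  iT : ∀ i, IC μ' (f i) (T i)
  one : ∀ i y, ‖f i y‖ = 1
  cp : ∀ i, S i - T i ∈ cpt H
  null : ∀ z ∈ acS E, Tendsto (fun i => ∫ y, f i y ∂μ z) l (𝓝 0)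

theorem fam_ch (h : Sp A E μ) (h' : Sp B E' μ') (hK : ∀ j, A j - B j ∈ cpt H) (j : Fin n) :
    Fam E μ μ' atTop (fun t : ℝ => ch (Pi.single j t)) (fun t => Ex A (Pi.single j t))
      fun t => Ex B (Pi.single j t) :=
  ⟨fun _ => h.ch _, fun _ => h'.ch _, fun _ _ => ch_norm _ _, fun _ => Ex_cpt hK _, fun z hz => by
    have := h.pv.fin z
    exact riemann (h.pv.ac hz) j⟩

theorem cpt_star {U V : H →L[ℂ] H} (hU : star U * U = 1) (hV : V * star V = 1)
    (h : U - V ∈ cpt H) : star U - star V ∈ cpt H := by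
  have e : star U - star V = -(star U * (U - V) * star V) := by
    rw [mul_sub, sub_mul, hU, one_mul, mul_assoc, hV, mul_one, neg_sub]
  rw [e]
  exact neg_mem (cpt_right (cpt_left h _) _)

theorem unit_norm {U V : H →L[ℂ] H} (hU : star U * U = 1) (hV : V * star V = 1) (x : H) :
    ‖star V (U x)‖ = ‖x‖ := by
  rw [norm_of_unit (by rwa [star_star]), norm_of_unit hU]

theorem cauchy' [l.IsCountablyGenerated] [l'.IsCountablyGenerated] (hs : ∑ j, a j = 1)
    (ha : ∀ j, 0 < a j) (ha1 : ∀ j, a j < 1) (h : Sp A E μ) (h' : Sp B E' μ')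
    (hK : ∀ j, Apy a (a j) (A j - B j)) (hf : Fam E μ μ' l f S T) (hg : Fam E μ μ' l' g S' T')
    {x : H} (hx : x ∈ acS E) {ε : ℝ} (hε : 0 < ε) :
    ∀ᶠ z in l ×ˢ l', ‖star (T z.1) (S z.1 x) - star (T' z.2) (S' z.2 x)‖ ≤ ε := by
  obtain ⟨ξ, hξ, M, h1, hv⟩ := h.frame hx (ε := ε / 3) (by positivity)
  obtain ⟨η, hη, hη'⟩ := ENNReal.exists_nnreal_pos_mul_lt (a := 2 * n)
    (b := ENNReal.ofReal ((ε / 3) ^ 2 / 2)) (by finiteness)
    (ENNReal.ofReal_pos.mpr (by positivity)).ne'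
  have h0 : (0 : ℝ≥0∞) < η := by exact_mod_cast hη
  have fl : ∀ {φ : (Fin n → ℝ) → ℂ} {U : H →L[ℂ] H}, IC μ φ U →
      Flow a A fun k => U (Ex A k ξ) := fun {φ U} hU => by
    have e : ∀ k, U (Ex A k ξ) = Ex A k (U ξ) := fun k =>
      DFunLike.congr_fun (h.pv.comm hU (h.ch k)).eq ξ
    simpa only [e] using h.flow (U ξ)
  have nf := fun y k => h.pv.null hf.iS hf.null (h.pv.map_ac (h.ch k) hξ) y
  have ng := fun y k => h.pv.null hg.iS hg.null (h.pv.map_ac (h.ch k) hξ) y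
  have ff := fun i => hv.map (le_of_unit (h.pv.unit (hf.iS i) (hf.one i)).1)
  have fg := fun j => hv.map (le_of_unit (h.pv.unit (hg.iS j) (hg.one j)).1)
  filter_upwards [(eventually_all.2 fun j => (hK j).small hs (ha j) (ha1 j) ff nf h0).prod_mk
    (eventually_all.2 fun j => (hK j).small hs (ha j) (ha1 j) fg ng h0)] with z hz
  obtain ⟨s1, s2⟩ := hz
  have uf := h'.pv.unit (hf.iT z.1) (hf.one z.1)
  have ug := h'.pv.unit (hg.iT z.2) (hg.one z.2)
  have vf := h.pv.unit (hf.iS z.1) (hf.one z.1)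
  have vg := h.pv.unit (hg.iS z.2) (hg.one z.2)
  set U := T' z.2 * star (T z.1) with hU
  have hU1 : ‖U‖ ≤ 1 := le_of_unit (by
    rw [hU, star_mul, star_star, mul_assoc, ← mul_assoc (star _), ug.1, one_mul, uf.2])
  have f1 := (fg z.2).map (U := ContinuousLinearMap.adjoint U) (by simpa using hU1)
  have f2 := (ff z.1).map hU1
  have h2 := (key' hs ha ha1 (fun j => (h.int j).sa)
    (fun j => h'.pv.comm (h'.int j) (h'.pv.mul (hg.iT z.2) (hf.iT z.1).star))
    (V := S' z.2 * star (S z.1)) (cpt_apx (by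
      rw [← neg_sub]
      exact neg_mem (cpt_mul (hg.cp _) (cpt_star vf.1 uf.2 (hf.cp _)))))
    (ff z.1) (fg z.2) (fl (hf.iS _)) (fl (hg.iS _)) (c₀ := ⟪ξ, ξ⟫_ℂ) (fun k => by
      rw [mul_apply_eq_comp, ← mul_apply_eq_comp (star _), vf.1,
        one_apply_eq_self, inner_self_eq_norm_sq_to_K, inner_self_eq_norm_sq_to_K,
        norm_of_unit vg.1, norm_of_unit (h.pv.unit (h.ch k) (ch_norm k)).1])).trans
    ((Finset.sum_le_sum fun j _ => add_le_add (s1 j _ f1).1 (s2 j _ f2).2).trans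
      (le_trans (le_of_eq (by simp; ring)) hη'.le))
  rw [← ofReal_norm, ENNReal.ofReal_le_ofReal_iff (by positivity), Ex_zero, one_apply_eq_self,
    mul_apply_eq_comp, ← star_inner] at h2
  have nf1 := unit_norm vf.1 uf.2
  have ng1 := unit_norm vg.1 ug.2
  have h3 : ‖star (T z.1) (S z.1 ξ) - star (T' z.2) (S' z.2 ξ)‖ ≤ ε / 3 := by
    refine le_of_sq_le_sq ?_ (by positivity)
    rw [norm_sub_rev, norm_sub_sq (𝕜 := ℂ), nf1, ng1]
    have h4 := (abs_le.mp ((RCLike.abs_re_le_norm (K := ℂ) _).trans h2)).1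
    rw [map_sub, inner_self_eq_norm_sq] at h4
    linarith
  have h5 := dist_triangle4 (star (T z.1) (S z.1 x)) (star (T z.1) (S z.1 ξ))
    (star (T' z.2) (S' z.2 ξ)) (star (T' z.2) (S' z.2 x))
  rw [dist_comm (star (T' z.2) (S' z.2 ξ))] at h5
  simp only [dist_eq_norm, ← map_sub, nf1, ng1] at h5
  linarith

theorem wave0 (j₀ : Fin n) (hs : ∑ j, a j = 1) (ha : ∀ j, 0 < a j) (ha1 : ∀ j, a j < 1)
    (h : Sp A E μ) (h' : Sp B E' μ') (hK : ∀ j, Apy a (a j) (A j - B j)) : ∃ W : H →L[ℂ] H,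
      (∀ (ι : Type) (l : Filter ι) [l.IsCountablyGenerated] (f : ι → (Fin n → ℝ) → ℂ)
        (S T : ι → H →L[ℂ] H), Fam E μ μ' l f S T →
        ∀ x ∈ acS E, Tendsto (fun i => star (T i) (S i x)) l (𝓝 (W x))) ∧
      (∀ x ∈ acS E, ‖W x‖ = ‖x‖ ∧ ∀ j, W (A j x) = B j (W x)) ∧
      ∀ x ∈ acS E, W x ∈ acS E' := by
  have hC := fun j => (hK j).cpt
  have F := fam_ch h h' hC j₀
  have u := fun t => h'.pv.unit (F.iT t) (F.one t)
  have v := fun t => h.pv.unit (F.iS t) (F.one t)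
  have ex1 : ∀ x : H, ∃ y, Tendsto (fun t : ℝ => star (Ex B (Pi.single j₀ t))
      (Ex A (Pi.single j₀ t) ((acS E).starProjection x))) atTop (𝓝 y) := fun x => by
    rw [← cauchy_map_iff_exists_tendsto, cauchy_map_iff',
      Metric.uniformity_basis_dist_le.tendsto_right_iff]
    intro ε hε
    simpa only [mem_ofPred_eq, dist_eq_norm] using cauchy' hs ha ha1 h h' hK F F
      ((acS E).starProjection_apply_mem x) hε
  choose w hw using ex1
  have hw' : ∀ x ∈ acS E, Tendsto (fun t : ℝ => star (Ex B (Pi.single j₀ t))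
      (Ex A (Pi.single j₀ t) x)) atTop (𝓝 (w x)) :=
    fun x hx => by simpa only [Submodule.starProjection_eq_self_iff.2 hx] using hw x
  have int : ∀ {φ : (Fin n → ℝ) → ℂ} {U V : H →L[ℂ] H}, IC μ φ U → IC μ' φ V →
      U - V ∈ cpt H → ∀ x ∈ acS E, w (U x) = V (w x) := by
    intro φ U V c1 c2 hK x hx
    refine tendsto_nhds_unique (hw' _ (h.pv.map_ac c1 hx)) ?_
    have t1 := cpt_strong hK (norm_nonneg x) (fun t : ℝ => norm_of_unit (v t).1 x)
      (h.pv.null F.iS F.null hx)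
    have t2 : Tendsto (fun t : ℝ => star (Ex B (Pi.single j₀ t))
        ((U - V) (Ex A (Pi.single j₀ t) x))) atTop (𝓝 0) := by
      rw [tendsto_zero_iff_norm_tendsto_zero] at t1 ⊢
      refine t1.congr fun t => (norm_of_unit ?_ _).symm
      rw [star_star, (u t).2]
    have t3 := ((V.continuous.tendsto _).comp (hw' x hx)).add t2
    rw [add_zero] at t3
    refine t3.congr fun t => ?_
    have e1 : U (Ex A (Pi.single j₀ t) x) = Ex A (Pi.single j₀ t) (U x) :=
      DFunLike.congr_fun (h.pv.comm c1 (h.ch _)).eq x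
    have e2 : ∀ y, V (star (Ex B (Pi.single j₀ t)) y) = star (Ex B (Pi.single j₀ t)) (V y) :=
      fun y => DFunLike.congr_fun (h'.pv.comm c2 (h'.ch _).star).eq y
    simp [e1, e2]
  have iso : ∀ x ∈ acS E, ∀ y ∈ acS E, ⟪w x, w y⟫_ℂ = ⟪x, y⟫_ℂ := fun x hx y hy => by
    refine tendsto_nhds_unique ((hw' x hx).inner (hw' y hy)) (tendsto_const_nhds.congr fun t => ?_)
    rw [star_inner, ← mul_apply_eq_comp (Ex B _), (u t).2, one_apply_eq_self,
      ← star_star (Ex A _), star_inner, star_star, ← mul_apply_eq_comp, (v t).1, one_apply_eq_self]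
  refine ⟨continuousLinearMapOfTendsto (fun t : ℝ => star (Ex B (Pi.single j₀ t)) *
    Ex A (Pi.single j₀ t) * (acS E).starProjection) (f := w) (tendsto_pi_nhds.2 hw),
    fun ι l _ f S T hf x hx => ?_,
    fun x hx => ⟨?_, fun j => int (h.int j) (h'.int j) (hC j) x hx⟩, fun x hx => ?_⟩
  · rw [Metric.nhds_basis_closedBall.tendsto_right_iff]
    intro ε hε
    filter_upwards [(cauchy' hs ha ha1 h h' hK hf F hx hε).curry] with i hi
    rw [Metric.mem_closedBall, dist_eq_norm]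
    exact le_of_tendsto ((hw' x hx).const_sub _).norm hi
  · refine tendsto_nhds_unique (hw' x hx).norm ?_
    simp only [fun t => unit_norm (v t).1 (u t).2 x]
    exact tendsto_const_nhds
  · have := h.pv.fin x
    have := h'.pv.fin (w x)
    have e : μ' (w x) = μ x := Measure.ext_of_charFunDual (funext fun L => by
      have e1 : ∀ p : Fin n → ℝ, cexp (L p * I) = ch (fun j => L (Pi.single j 1)) p := fun p => by
        have e2 : L p = ∑ j, L (Pi.single j 1) * p j := by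
          conv_lhs => rw [pi_eq_sum_univ' p, map_sum]
          exact Finset.sum_congr rfl fun j _ => by rw [map_smul, smul_eq_mul, mul_comm]
        rw [ch, e2, mul_comm]
      simp only [charFunDual_apply, e1]
      rw [← (h'.ch _).eq, ← (h.ch _).eq, ← int (h.ch _) (h'.ch _) (Ex_cpt hC _) x hx,
        iso x hx _ (h.pv.map_ac (h.ch _) hx)])
    intro S hS h0
    have h1 := h'.pv.app (w x) S hS
    rw [e, h.pv.ac hx h0] at h1
    change E' S (w x) = 0
    simpa using h1.symm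

end Pool.Agent.Work.MP_707689_an.N
end

-- merged part: Pool.Agent.Work.MP_707689_an.N.Borel
section
/-! Borel unimodular families and completeness. -/

open MeasureTheory Set Filter Topology Complex Metric
open scoped ENNReal NNReal InnerProductSpace ComplexConjugate Real

namespace Pool.Agent.Work.MP_707689_an.N

variable {H : Type} [NormedAddCommGroup H] [InnerProductSpace ℂ H] [CompleteSpace H] {n : ℕ}
  {A B : Fin n → H →L[ℂ] H} {E E' : Set (Fin n → ℝ) → H →L[ℂ] H}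
  {μ μ' : H → Measure (Fin n → ℝ)}

theorem Sp.supp (h : Sp A E μ) {R : ℝ} (hR : ∑ j, ‖A j‖ ≤ R) (x : H) :
    ∀ᵐ p ∂μ x, p ∈ closedBall (0 : Fin n → ℝ) R := by
  filter_upwards [ae_all_iff.2 fun j => h.pv.bdd (h.int j) x] with p hp
  rw [mem_closedBall_zero_iff, pi_norm_le_iff_of_nonneg
    ((Finset.sum_nonneg fun j _ => norm_nonneg _).trans hR)]
  exact fun j => (hp j).trans ((Finset.single_le_sum (f := fun j => ‖A j‖)
    (fun j _ => norm_nonneg _) (Finset.mem_univ j)).trans hR)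

theorem exp_lip (s t : ℝ) : ‖cexp (I * s) - cexp (I * t)‖ ≤ ‖s - t‖ := by
  have e : cexp (I * s) - cexp (I * t) = cexp (I * t) * (cexp (I * (s - t : ℝ)) - 1) := by
    rw [mul_sub, mul_one, ← Complex.exp_add]
    congr 2
    push_cast
    ring
  rw [e, norm_mul, norm_exp_I_mul_ofReal, one_mul]
  exact Real.norm_exp_I_mul_ofReal_sub_one_le

theorem good_approx (h : Sp A E μ) (h' : Sp B E' μ') (hK : ∀ j, A j - B j ∈ cpt H)
    {φ : (Fin n → ℝ) → ℂ} (hφ : Measurable φ) (h1 : ∀ y, ‖φ y‖ = 1) {K : Set (Fin n → ℝ)}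
    (cK : IsCompact K) {ε : ℝ≥0∞} (hε : ε ≠ 0) :
    ∃ (ψ : (Fin n → ℝ) → ℂ) (U V : H →L[ℂ] H), IC μ ψ U ∧ IC μ' ψ V ∧ (∀ y, ‖ψ y‖ = 1) ∧
      U - V ∈ cpt H ∧ ∫⁻ y in K, ‖φ y - ψ y‖ₑ ≤ ε := by
  have : IsFiniteMeasure (volume.restrict K) := isFiniteMeasure_restrict.2 cK.measure_ne_top
  have h2 := (ENNReal.half_pos hε).ne'
  have mθ : Measurable fun y => arg (φ y) := measurable_arg.comp hφ
  obtain ⟨θ, hθ, -⟩ := (Integrable.of_bound (μ := volume.restrict K) mθ.aestronglyMeasurable π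
    (.of_forall fun y => abs_arg_le_pi _)).exists_boundedContinuous_lintegral_sub_le h2
  obtain ⟨δ, hδ, hδ'⟩ := ENNReal.exists_nnreal_pos_mul_lt (a := volume K) cK.measure_ne_top h2
  let S : Subalgebra ℝ C(Fin n → ℝ, ℝ) :=
    { carrier := {g | ∃ G G' : H →L[ℂ] H, IC μ (fun p => (g p : ℂ)) G ∧
        IC μ' (fun p => (g p : ℂ)) G' ∧ G - G' ∈ cpt H}
      mul_mem' := fun ⟨G, G', a1, a2, a3⟩ ⟨F, F', b1, b2, b3⟩ =>
        ⟨G * F, G' * F', (h.pv.mul a1 b1).congr fun p => by simp,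
          (h'.pv.mul a2 b2).congr fun p => by simp, cpt_mul a3 b3⟩
      add_mem' := fun ⟨G, G', a1, a2, a3⟩ ⟨F, F', b1, b2, b3⟩ =>
        ⟨G + F, G' + F', (a1.add b1).congr fun p => by simp, (a2.add b2).congr fun p => by simp,
          by rw [add_sub_add_comm]; exact add_mem a3 b3⟩
      algebraMap_mem' := fun c => ⟨(c : ℂ) • 1, (c : ℂ) • 1,
        (h.pv.one.smul c).congr fun p => by simp, (h'.pv.one.smul c).congr fun p => by simp,
        by simp⟩ }
  have hS : S.SeparatesPoints := fun x y hxy => by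
    obtain ⟨j, hj⟩ := Function.ne_iff.1 hxy
    exact ⟨_, ⟨⟨fun p => p j, continuous_apply j⟩, ⟨A j, B j, h.int j, h'.int j, hK j⟩, rfl⟩, hj⟩
  obtain ⟨g, ⟨G, G', a1, a2, a3⟩, hg⟩ :=
    ContinuousMap.exists_mem_subalgebra_near_continuous_of_isCompact_of_separatesPoints hS
      θ.toContinuousMap cK (ε := δ) (by exact_mod_cast hδ)
  refine ⟨_, _, _, h.pv.exp a1, h'.pv.exp a2, fun y => norm_exp_I_mul_ofReal _, cpt_ex a3 1, ?_⟩
  calc _ ≤ ∫⁻ y in K, (‖arg (φ y) - θ y‖ₑ + δ) := by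
        refine setLIntegral_mono' cK.measurableSet fun y hy => ?_
        have e : φ y = cexp (I * arg (φ y)) := by
          conv_lhs => rw [← norm_mul_exp_arg_mul_I (φ y), h1, ofReal_one, one_mul, mul_comm]
        have h3 := exp_lip (arg (φ y)) (g y)
        have h4 := norm_sub_le_norm_sub_add_norm_sub (arg (φ y)) (θ y) (g y)
        have h5 : ‖θ y - g y‖ ≤ δ := by
          rw [norm_sub_rev]
          exact (hg y hy).le
        rw [← e] at h3
        simp only [enorm_eq_nnnorm, ← ENNReal.coe_add, ENNReal.coe_le_coe, ← NNReal.coe_le_coe,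
          NNReal.coe_add, coe_nnnorm]
        linarith
    _ ≤ ε / 2 + ε / 2 := by
        rw [lintegral_add_right _ measurable_const, setLIntegral_const]
        exact add_le_add hθ hδ'.le
    _ = ε := ENNReal.add_halves ε

theorem borel (h : Sp A E μ) (h' : Sp B E' μ') (hK : ∀ j, A j - B j ∈ cpt H) {W : H →L[ℂ] H}
    (hW : ∀ (f : ℕ → (Fin n → ℝ) → ℂ) (S T : ℕ → H →L[ℂ] H), Fam E μ μ' atTop f S T →
      ∀ x ∈ acS E, Tendsto (fun i => star (T i) (S i x)) atTop (𝓝 (W x)))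
    (hW' : ∀ x ∈ acS E, W x ∈ acS E') {f : ℕ → (Fin n → ℝ) → ℂ} {S T : ℕ → H →L[ℂ] H}
    (iS : ∀ i, IC μ (f i) (S i)) (iT : ∀ i, IC μ' (f i) (T i)) (h1 : ∀ i y, ‖f i y‖ = 1)
    (null : ∀ z ∈ acS E, Tendsto (fun i => ∫ y, f i y ∂μ z) atTop (𝓝 0)) {x : H}
    (hx : x ∈ acS E) : Tendsto (fun i => star (T i) (S i x)) atTop (𝓝 (W x)) := by
  set K := closedBall (0 : Fin n → ℝ) (max (∑ j, ‖A j‖) (∑ j, ‖B j‖)) with hKd
  have cK : IsCompact K := isCompact_closedBall _ _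
  obtain ⟨ε, hε, hε'⟩ := ENNReal.exists_pos_sum_of_countable one_ne_zero ℕ
  choose ψ U V iU iV h2 cp h3 using fun i => good_approx h h' hK (iS i).meas (h1 i) cK
    (ε := ε i) (by exact_mod_cast (hε i).ne')
  have md : ∀ i, Measurable fun y => f i y - ψ i y := fun i => (iS i).meas.sub (iU i).meas
  have bd : ∀ i y, ‖f i y - ψ i y‖ ≤ 2 := fun i y =>
    (norm_sub_le _ _).trans (by rw [h1, h2, one_add_one_eq_two])
  have ae1 : ∀ᵐ y, y ∈ K → Tendsto (fun i => f i y - ψ i y) atTop (𝓝 0) := by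
    rw [← ae_restrict_iff' cK.measurableSet]
    have h4 : ∫⁻ y in K, ∑' i, ‖f i y - ψ i y‖ₑ ≠ ∞ := by
      rw [lintegral_tsum fun i => (md i).enorm.aemeasurable]
      exact ne_top_of_lt ((ENNReal.tsum_le_tsum h3).trans_lt hε')
    filter_upwards [ae_lt_top (Measurable.tsum fun i => (md i).enorm) h4] with y hy
    exact tendsto_zero_iff_enorm_tendsto_zero.2 (ENNReal.tendsto_atTop_zero_of_tsum_ne_top hy.ne)
  have dom : ∀ (ν : Measure (Fin n → ℝ)) [IsFiniteMeasure ν], ν ≪ volume → (∀ᵐ y ∂ν, y ∈ K) →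
      Tendsto (fun i => ∫ y, (f i y - ψ i y) ∂ν) atTop (𝓝 0) ∧
      Tendsto (fun i => ∫ y, ‖f i y - ψ i y‖ ^ 2 ∂ν) atTop (𝓝 0) := by
    intro ν _ hν hs
    have ae2 : ∀ᵐ y ∂ν, Tendsto (fun i => f i y - ψ i y) atTop (𝓝 0) := by
      filter_upwards [hν.ae_le ae1, hs] with y h4 h5 using h4 h5
    constructor
    · simpa using tendsto_integral_of_dominated_convergence (fun _ => (2 : ℝ))
        (fun i => (md i).aestronglyMeasurable) (integrable_const _)
        (fun i => .of_forall (bd i)) ae2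
    · simpa using tendsto_integral_of_dominated_convergence (μ := ν)
        (F := fun i y => ‖f i y - ψ i y‖ ^ 2) (f := fun _ => 0) (fun _ => (2 : ℝ) ^ 2)
        (fun i => ((md i).norm.pow_const 2).aestronglyMeasurable) (integrable_const _)
        (fun i => .of_forall fun y => by
          rw [norm_pow, norm_norm]
          exact pow_le_pow_left₀ (norm_nonneg _) (bd i y) 2)
        (ae2.mono fun y hy => by simpa using hy.norm.pow 2)
  have dA := fun z (hz : z ∈ acS E) => @dom _ (h.pv.fin z) (h.pv.ac hz) (h.supp (le_max_left _ _) z)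
  have dB := (@dom _ (h'.pv.fin (W x)) (h'.pv.ac (hW' x hx)) (h'.supp (le_max_right _ _) _)).2
  have t1 := hW ψ U V ⟨iU, iV, h2, cp, fun z hz => by
    refine (sub_zero (0 : ℂ) ▸ (null z hz).sub (dA z hz).1).congr fun i => ?_
    rw [integral_sub ((iS i).int z) ((iU i).int z), sub_sub_cancel]⟩ x hx
  have t2 := (dA x hx).2
  simp only [fun i => (h.pv.norm_sq ((iS i).sub (iU i)) x).symm] at t2
  simp only [fun i => (h'.pv.norm_sq ((iT i).sub (iV i)) (W x)).symm] at dB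
  have t3 := t2.sqrt
  have t4 := dB.sqrt
  simp only [Real.sqrt_sq (norm_nonneg _), Real.sqrt_zero] at t3 t4
  rw [tendsto_iff_norm_sub_tendsto_zero] at t1 ⊢
  refine squeeze_zero (fun _ => norm_nonneg _) (fun i => ?_)
    (by simpa using (t3.add t1).add t4 : Tendsto (fun i => ‖(S i - U i) x‖ +
      ‖star (V i) (U i x) - W x‖ + ‖(T i - V i) (W x)‖) atTop (𝓝 0))
  have uT := h'.pv.unit (iT i) (h1 i)
  have uV := h'.pv.unit (iV i) (h2 i)
  have e1 : star (T i) (T i (W x)) = W x := by rw [← mul_apply_eq_comp, uT.1, one_apply_eq_self]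
  have e2 : V i (star (V i) (U i x)) = U i x := by
    rw [← mul_apply_eq_comp, uV.2, one_apply_eq_self]
  have e : star (T i) (S i x) - W x = star (T i) ((S i - U i) x + V i (star (V i) (U i x) - W x) -
      (T i - V i) (W x)) := by
    simp only [sub_apply, map_sub, map_add, e1, e2]
    abel
  rw [e, norm_of_unit (by rw [star_star, uT.2]), ← norm_of_unit uV.1 (star (V i) (U i x) - W x)]
  exact (norm_sub_le _ _).trans (add_le_add (norm_add_le _ _) le_rfl)

theorem IsSpec.sp (hE : IsSpec A E) : ∃ μ, Sp A E μ ∧ ∀ x, IsScal E x (μ x) := by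
  choose μ hμ using hE.meas
  exact ⟨μ, ⟨⟨hE.sa, hE.inter, hE.univ, hμ⟩, fun j => ⟨measurable_ofReal.comp
    (measurable_pi_apply j), fun x => (hE.int j x _ (hμ x)).1, fun x => (hE.int j x _ (hμ x)).2⟩⟩,
    hμ⟩

theorem wave1 (hn : 2 ≤ n) {p : Fin n → ℝ} (hp : ∀ j, 0 < p j) (hs : 1 ≤ ∑ j, 1 / p j)
    (hK : ∀ j, Lor (p j) (A j - B j)) (hE : IsSpec A E) (hE' : IsSpec B E') : ∃ W : H →L[ℂ] H,
      (∀ (ι : Type) (l : Filter ι) [l.IsCountablyGenerated] (f : ι → (Fin n → ℝ) → ℂ)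
        (S T : ι → H →L[ℂ] H), (∀ i, Measurable (f i)) → (∀ i y, ‖f i y‖ = 1) →
        (∀ g : (Fin n → ℝ) → ℂ, Integrable g → Tendsto (fun i => ∫ y, f i y * g y) l (𝓝 0)) →
        (∀ i, IsInt E (f i) (S i)) → (∀ i, IsInt E' (f i) (T i)) →
        ∀ x, AC E x → Tendsto (fun i => star (T i) (S i x)) l (𝓝 (W x))) ∧
      (∀ x, AC E x → ‖W x‖ = ‖x‖ ∧ ∀ j, W (A j x) = B j (W x)) ∧
      W '' {x | AC E x} = {y | AC E' y} := by
  have : Nontrivial (Fin n) := Fin.nontrivial_iff_two_le.2 hn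
  have hp' := fun j => one_div_pos.2 (hp j)
  have h0 : 0 < ∑ j, 1 / p j := one_pos.trans_le hs
  set a : Fin n → ℝ := fun j => 1 / p j / ∑ j, 1 / p j with hd
  have ha : ∀ j, 0 < a j := fun j => div_pos (hp' j) h0
  have hs1 : ∑ j, a j = 1 := by rw [hd, ← Finset.sum_div, div_self h0.ne']
  have ha1 : ∀ j, a j < 1 := fun j => by
    obtain ⟨i, hi⟩ := exists_ne j
    rw [← hs1]
    exact Finset.single_lt_sum hi (Finset.mem_univ j) (Finset.mem_univ i) (ha i)
      fun k _ _ => (ha k).le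
  have k : ∀ j, Apy a (a j) (A j - B j) := fun j =>
    apy_of_lor hs1 (ha j) (ha1 j) (div_le_self (hp' j).le hs) (hK j)
  obtain ⟨j₀⟩ : Nonempty (Fin n) := inferInstance
  obtain ⟨μ, h, m⟩ := hE.sp
  obtain ⟨μ', h', m'⟩ := hE'.sp
  obtain ⟨W, h1, h2, h3⟩ := wave0 j₀ hs1 ha ha1 h h' k
  obtain ⟨W', g1, -, g3⟩ := wave0 j₀ hs1 ha ha1 h' h fun j => (k j).neg
  refine ⟨W, fun ι l _ f S T c1 c2 c3 iS iT x hx => ?_, h2,
    Subset.antisymm ?_ fun y hy => ⟨W' y, g3 y hy, ?_⟩⟩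
  · refine tendsto_iff_seq_tendsto.2 fun u hu => borel h h' (fun j => (k j).cpt) (h1 ℕ atTop) h3
      (f := fun i => f (u i)) (S := fun i => S (u i)) (T := fun i => T (u i))
      (fun i => ⟨c1 _, fun z => (iS _ z _ (m z)).1, fun z => (iS _ z _ (m z)).2⟩)
      (fun i => ⟨c1 _, fun z => (iT _ z _ (m' z)).1, fun z => (iT _ z _ (m' z)).2⟩)
      (fun i => c2 _) (fun z hz => ?_) hx
    have := h.pv.fin z
    refine ((c3 (fun y => (((μ z).rnDeriv volume y).toReal : ℂ))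
      (Measure.integrable_toReal_rnDeriv.ofReal)).comp hu).congr fun i => ?_
    rw [← integral_rnDeriv_smul (h.pv.ac hz)]
    simp only [Function.comp, real_smul, mul_comm]
  · rintro _ ⟨x, hx, rfl⟩
    exact h3 x hx
  · have F := fam_ch h h' (fun j => (k j).cpt) j₀
    refine tendsto_nhds_unique (h1 _ _ _ _ _ F _ (g3 y hy)) ?_
    have t := g1 _ _ _ _ _ (fam_ch h' h (fun j => (k j).neg.cpt) j₀) y hy
    rw [tendsto_iff_norm_sub_tendsto_zero] at t ⊢
    refine t.congr fun t => ?_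
    have u := h'.pv.unit (F.iT t) (F.one t)
    have v := h.pv.unit (F.iS t) (F.one t)
    rw [← unit_norm v.1 u.2, map_sub, map_sub, ← mul_apply_eq_comp (Ex A _), v.2,
      one_apply_eq_self, ← mul_apply_eq_comp, u.1, one_apply_eq_self, norm_sub_rev]

end Pool.Agent.Work.MP_707689_an.N
end

-- merged part: Pool.Agent.Work.MP_707689_an.G.Psi
section
/-! Integrals along polygonal anisotropic curves with general weights. -/

open MeasureTheory Set Filter Topology
open scoped ENNReal NNReal InnerProductSpace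

namespace Pool.Agent.Work.MP_707689_an.N.G

variable {H : Type} [NormedAddCommGroup H] [InnerProductSpace ℂ H] [CompleteSpace H] {n : ℕ}

/-- admissible vertices of the polygonal curve -/
structure Wt (φ : ℕ → Fin n → ℝ) (θ : ℝ) : Prop where
  zero : φ 0 = 0
  mono : ∀ m j, φ m j ≤ φ (m + 1) j
  pos : ∀ m j, 0 < φ (m + 1) j
  dbl : ∀ m j, φ (m + 2) j ≤ θ * φ (m + 1) j
  lt : θ < 2
  tpos : 0 < θ
  prod : ∀ m, (2 : ℝ) ^ m ≤ ∏ j, φ (m + 1) j

/-- the segments of the curve -/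
def seg (φ : ℕ → Fin n → ℝ) (m : ℕ) (τ : ℝ) (u : Fin n → ℝ) : Fin n → ℝ :=
  fun j => (φ m j + τ * (φ (m + 1) j - φ m j)) * u j

variable {φ : ℕ → Fin n → ℝ} {θ : ℝ} {j : Fin n}

theorem seg_cont (φ : ℕ → Fin n → ℝ) (m : ℕ) :
    Continuous fun z : ℝ × (Fin n → ℝ) => seg φ m z.1 z.2 := by
  unfold seg
  fun_prop

theorem seg_meas (φ : ℕ → Fin n → ℝ) (m : ℕ) (τ : ℝ) : Measurable (seg φ m τ) := by
  unfold seg
  fun_prop

theorem diag_le {g : (Fin n → ℝ) → ℝ≥0∞} (hg : Measurable g) {x : Fin n → ℝ}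
    {c : ℝ} (hc : 0 < c) (h : c ≤ ∏ j, x j) :
    ∫⁻ u in Q n, g (fun j => x j * u j) ≤ ENNReal.ofReal c⁻¹ * ∫⁻ k, g k := by
  have h0 : 0 < ∏ j, x j := hc.trans_le h
  have h1 := Real.map_matrix_volume_pi_eq_smul_volume_pi (M := Matrix.diagonal x)
    (by rw [Matrix.det_diagonal]; exact h0.ne')
  have e : ⇑(Matrix.toLin' (Matrix.diagonal x)) = fun u j => x j * u j := by
    funext u j
    simp [Matrix.toLin'_apply, Matrix.mulVec_diagonal]
  rw [e, Matrix.det_diagonal, abs_of_pos (inv_pos.2 h0)] at h1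
  refine (setLIntegral_le_lintegral _ _).trans ?_
  rw [← lintegral_map (g := fun (u : Fin n → ℝ) j => x j * u j) hg (by fun_prop), h1,
    lintegral_smul_measure, smul_eq_mul]
  gcongr

theorem seg_le (hφ : Wt φ θ) {g : (Fin n → ℝ) → ℝ≥0∞} (hg : Measurable g) (m : ℕ) {τ : ℝ}
    (hτ : 0 ≤ τ) :
    ∫⁻ u in Q n, g (seg φ (m + 1) τ u) ≤ ENNReal.ofReal (2 ^ m)⁻¹ * ∫⁻ k, g k := by
  have h : ∀ j, φ (m + 1) j ≤ φ (m + 1) j + τ * (φ (m + 1 + 1) j - φ (m + 1) j) := fun j =>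
    le_add_of_nonneg_right (mul_nonneg hτ (sub_nonneg.2 (hφ.mono _ j)))
  exact diag_le hg (by positivity)
    ((hφ.prod m).trans (Finset.prod_le_prod (fun j _ => (hφ.pos m j).le) fun j _ => h j))

/-- the weighted average along one segment -/
noncomputable def av (φ : ℕ → Fin n → ℝ) (j : Fin n) (g : (Fin n → ℝ) → ℝ≥0∞) (m : ℕ) : ℝ≥0∞ :=
  ENNReal.ofReal (φ (m + 1) j - φ m j) * ∫⁻ τ in Ioc (0 : ℝ) 1, ∫⁻ u in Q n, g (seg φ m τ u)

/-- the weighted integral along the curves -/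
noncomputable def Psi (φ : ℕ → Fin n → ℝ) (j : Fin n) (g : (Fin n → ℝ) → ℝ≥0∞) : ℝ≥0∞ :=
  ∑' m, av φ j g m

theorem in_meas {g : (Fin n → ℝ) → ℝ≥0∞} (hg : Measurable g) (m : ℕ) :
    Measurable fun τ : ℝ => ∫⁻ u in Q n, g (seg φ m τ u) :=
  Measurable.lintegral_prod_right' (f := fun z : ℝ × (Fin n → ℝ) => g (seg φ m z.1 z.2))
    (hg.comp (seg_cont φ m).measurable)

theorem av_mono {g g' : (Fin n → ℝ) → ℝ≥0∞} (h : ∀ k, g k ≤ g' k) (m : ℕ) :
    av φ j g m ≤ av φ j g' m :=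
  mul_le_mul_right (lintegral_mono fun _ => lintegral_mono fun _ => h _) _

theorem av_le {g : (Fin n → ℝ) → ℝ≥0∞} {m : ℕ} {C : ℝ≥0∞}
    (h : ∀ τ ∈ Ioc (0 : ℝ) 1, ∫⁻ u in Q n, g (seg φ m τ u) ≤ C) :
    av φ j g m ≤ ENNReal.ofReal (φ (m + 1) j - φ m j) * C :=
  mul_le_mul_right ((setLIntegral_mono' measurableSet_Ioc h).trans (by simp)) _

theorem loc_le (hφ : Wt φ θ) {g : (Fin n → ℝ) → ℝ≥0∞} {C : ℝ≥0∞} (hC : ∀ k, g k ≤ C) (T : ℕ) :
    ∑ m ∈ Finset.range T, av φ j g m ≤ C * ENNReal.ofReal (φ T j) := by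
  refine (Finset.sum_le_sum fun m _ => av_le fun τ _ => sq_le' fun _ => hC _).trans (le_of_eq ?_)
  rw [← Finset.sum_mul, ← ENNReal.ofReal_sum_of_nonneg fun m _ => sub_nonneg.2 (hφ.mono m j),
    Finset.sum_range_sub (fun m => φ m j), hφ.zero, Pi.zero_apply, sub_zero, mul_comm]

theorem Wt.pow (hφ : Wt φ θ) (T i : ℕ) : φ (T + 1 + i) j ≤ θ ^ i * φ (T + 1) j := by
  induction i with
  | zero => simp
  | succ i ih =>
    rw [show T + 1 + (i + 1) = T + i + 2 by ring, pow_succ', mul_assoc]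
    refine (hφ.dbl _ j).trans (mul_le_mul_of_nonneg_left ?_ hφ.tpos.le)
    rwa [show T + i + 1 = T + 1 + i by ring]

theorem Psi_split (hφ : Wt φ θ) {g : (Fin n → ℝ) → ℝ≥0∞} (hg : Measurable g) {d : ℝ≥0∞}
    (hd : ∫⁻ k, g k ≤ d) (T : ℕ) :
    Psi φ j g ≤ ∑ m ∈ Finset.range (T + 1), av φ j g m +
      d * ENNReal.ofReal (θ * (1 - θ / 2)⁻¹ * (φ (T + 1) j / 2 ^ T)) := by
  have h0 := hφ.tpos
  have h1 : θ / 2 < 1 := by linarith [hφ.lt]
  have hp := hφ.pos T j
  rw [Psi, ← ENNReal.summable.sum_add_tsum_nat_add' (k := T + 1)]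
  refine add_le_add le_rfl ?_
  have hs := (hasSum_geometric_of_lt_one (by positivity) h1).mul_left (θ * (φ (T + 1) j / 2 ^ T))
  rw [mul_right_comm, ← hs.tsum_eq, ENNReal.ofReal_tsum_of_nonneg (fun _ => by positivity)
    hs.summable, ← ENNReal.tsum_mul_left]
  refine ENNReal.tsum_le_tsum fun i => ?_
  rw [show i + (T + 1) = (T + i) + 1 by ring]
  refine (av_le fun τ hτ => (seg_le hφ hg _ hτ.1.le).trans (mul_le_mul_right hd _)).trans ?_
  rw [← mul_assoc, mul_comm d, ← ENNReal.ofReal_mul (sub_nonneg.2 (hφ.mono _ j))]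
  refine mul_le_mul_left (ENNReal.ofReal_le_ofReal ?_) _
  have h2 := hφ.pow (j := j) T (i + 1)
  rw [show T + 1 + (i + 1) = T + i + 1 + 1 by ring] at h2
  refine (mul_le_mul_of_nonneg_right ((sub_le_self _ (hφ.pos _ j).le).trans h2)
    (by positivity)).trans (le_of_eq ?_)
  rw [pow_succ, pow_add, div_pow]
  field_simp

theorem Psi_add {g g₁ g₂ : (Fin n → ℝ) → ℝ≥0∞} (h₁ : Measurable g₁) (h : ∀ k, g k ≤ g₁ k + g₂ k) :
    Psi φ j g ≤ Psi φ j g₁ + Psi φ j g₂ := by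
  rw [Psi, Psi, Psi, ← ENNReal.tsum_add]
  refine ENNReal.tsum_le_tsum fun m => (av_mono h m).trans (le_of_eq ?_)
  rw [av, av, av, ← mul_add, ← lintegral_add_left (in_meas h₁ m)]
  congr 1
  exact lintegral_congr fun τ => lintegral_add_left (f := fun u => g₁ (seg φ m τ u))
    (h₁.comp (seg_meas φ m τ)) _

theorem Psi_tsum {g : (Fin n → ℝ) → ℝ≥0∞} {G : ℕ → (Fin n → ℝ) → ℝ≥0∞}
    (hG : ∀ i, Measurable (G i)) (h : ∀ k, g k ≤ ∑' i, G i k) :
    Psi φ j g ≤ ∑' i, Psi φ j (G i) := by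
  simp only [Psi]
  rw [ENNReal.tsum_comm]
  refine ENNReal.tsum_le_tsum fun m => (av_mono h m).trans (le_of_eq ?_)
  simp only [av]
  rw [ENNReal.tsum_mul_left, ← lintegral_tsum fun i => (in_meas (hG i) m).aemeasurable]
  congr 1
  exact lintegral_congr fun τ => lintegral_tsum (f := fun i u => G i (seg φ m τ u))
    fun i => ((hG i).comp (seg_meas φ m τ)).aemeasurable

variable {M : ℝ≥0} {v w : (Fin n → ℝ) → H}

theorem Psi_rank (hφ : Wt φ θ) (hv : Frame M v) (hw : Frame M w) {r : ℕ}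
    {D : H →L[ℂ] H} (hD : Rk r D) {T : ℕ} (hr : (r : ℝ) ≤ 3 * 2 ^ T) :
    Psi φ j (fun k => ‖⟪w k, D (v k)⟫_ℂ‖ₑ) ≤
      M ^ 2 * ENNReal.ofReal ((1 + 3 * (θ * (1 - θ / 2)⁻¹)) * (‖D‖ * φ (T + 1) j)) := by
  have h0 := hφ.tpos
  have h1 : 0 < 1 - θ / 2 := by linarith [hφ.lt]
  have hp := hφ.pos T j
  refine (Psi_split hφ (meas_pair hv hw D) (lint_rank hv hw hD) T).trans
    ((add_le_add (loc_le hφ (pair_le hv hw D) _) le_rfl).trans ?_)
  have h2 : (r : ℝ≥0∞) * ENNReal.ofReal (θ * (1 - θ / 2)⁻¹ * (φ (T + 1) j / 2 ^ T)) ≤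
      ENNReal.ofReal (3 * (θ * (1 - θ / 2)⁻¹) * φ (T + 1) j) := by
    rw [← ENNReal.ofReal_natCast, ← ENNReal.ofReal_mul (Nat.cast_nonneg _)]
    refine ENNReal.ofReal_le_ofReal ((mul_le_mul_of_nonneg_right hr (by positivity)).trans
      (le_of_eq ?_))
    field_simp
  rw [mul_assoc _ (r : ℝ≥0∞)]
  refine (add_le_add le_rfl (mul_le_mul_right h2 _)).trans (le_of_eq ?_)
  rw [← mul_add, ← ENNReal.ofReal_add (by positivity) (by positivity), mul_assoc, ← ofReal_norm,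
    ← ENNReal.ofReal_mul (norm_nonneg _)]
  congr 2
  ring

theorem loc_zero {ι : Type} {l : Filter ι} [l.IsCountablyGenerated]
    {G : ι → (Fin n → ℝ) → ℝ≥0∞} (hG : ∀ i, Measurable (G i)) {C : ℝ≥0∞} (hC : C ≠ ∞)
    (hb : ∀ i k, G i k ≤ C) (hz : ∀ k, Tendsto (fun i => G i k) l (𝓝 0)) (T : ℕ) :
    Tendsto (fun i => ∑ m ∈ Finset.range T, av φ j (G i) m) l (𝓝 0) := by
  have h1 : ∀ m, Tendsto (fun i => av φ j (G i) m) l (𝓝 0) := fun m => by
    have h2 : ∀ τ, Tendsto (fun i => ∫⁻ u in Q n, G i (seg φ m τ u)) l (𝓝 0) := fun τ => by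
      simpa using tendsto_lintegral_filter_of_dominated_convergence (μ := volume.restrict (Q n))
        (l := l) (F := fun i u => G i (seg φ m τ u)) (f := fun _ => 0) (fun _ => C)
        (.of_forall fun i => (hG i).comp (seg_meas φ m τ))
        (.of_forall fun i => .of_forall fun u => hb _ _) (by simpa [volQ] using hC)
        (.of_forall fun u => hz _)
    have h3 := tendsto_lintegral_filter_of_dominated_convergence
      (μ := volume.restrict (Ioc (0 : ℝ) 1)) (l := l)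
      (F := fun i τ => ∫⁻ u in Q n, G i (seg φ m τ u)) (f := fun _ => 0) (fun _ => C)
      (.of_forall fun i => in_meas (hG i) m)
      (.of_forall fun i => .of_forall fun τ => sq_le' fun _ => hb _ _) (by simpa using hC)
      (.of_forall h2)
    rw [lintegral_zero] at h3
    simpa [av] using ENNReal.Tendsto.const_mul (a := ENNReal.ofReal (φ (m + 1) j - φ m j)) h3
      (Or.inr ENNReal.ofReal_ne_top)
  simpa using tendsto_finsetSum (Finset.range T) fun m _ => h1 m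

theorem decay' {ι : Type} {l : Filter ι} [l.IsCountablyGenerated] (hφ : Wt φ θ)
    {v : ι → (Fin n → ℝ) → H} (hv : ∀ i, Frame M (v i))
    (hz : ∀ h k, Tendsto (fun i => ⟪h, v i k⟫_ℂ) l (𝓝 0)) {m : ℕ} (e f : Fin m → H)
    {d ε : ℝ≥0∞} (hd : d ≠ ∞) (hε : 0 < ε) :
    ∀ᶠ i in l, ∀ w : (Fin n → ℝ) → H, Frame M w → ∀ g : (Fin n → ℝ) → ℝ≥0∞, Measurable g →
      ∫⁻ k, g k ≤ d → (∀ k, g k ≤ ∑ i', ‖⟪e i', w k⟫_ℂ‖ₑ * ‖⟪f i', v i k⟫_ℂ‖ₑ) →
      Psi φ j g ≤ ε := by
  have h2 := ENNReal.half_pos hε.ne'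
  have h0 := hφ.tpos
  have h1 : θ / 2 < 1 := by linarith [hφ.lt]
  have t0 : Tendsto (fun T : ℕ => φ (T + 1) j / 2 ^ T) atTop (𝓝 0) := by
    refine squeeze_zero (fun T => div_nonneg (hφ.pos T j).le (by positivity)) (fun T => ?_)
      (by simpa using (tendsto_pow_atTop_nhds_zero_of_lt_one (by positivity) h1).mul_const (φ 1 j))
    have h3 := hφ.pow (j := j) 0 T
    rw [zero_add, add_comm] at h3
    rw [div_pow, div_mul_eq_mul_div]
    gcongr
  have t1 : Tendsto (fun T : ℕ => d * ENNReal.ofReal (θ * (1 - θ / 2)⁻¹ * (φ (T + 1) j / 2 ^ T)))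
      atTop (𝓝 0) := by
    simpa using ENNReal.Tendsto.const_mul (a := d) (ENNReal.tendsto_ofReal
      (t0.const_mul (θ * (1 - θ / 2)⁻¹))) (Or.inr hd)
  obtain ⟨T, hT⟩ := (ENNReal.tendsto_nhds_zero.mp t1 _ h2).exists
  have t2 := loc_zero (φ := φ) (j := j) (l := l)
    (G := fun i k => ∑ i', ‖e i'‖ₑ * M * ‖⟪f i', v i k⟫_ℂ‖ₑ)
    (fun i => Finset.measurable_sum _ fun j _ => ((hv i).meas _).const_mul _)
    (C := ∑ i', ‖e i'‖ₑ * M * (‖f i'‖ₑ * M)) (ENNReal.sum_ne_top.2 fun j _ => by finiteness)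
    (fun i k => Finset.sum_le_sum fun j _ => mul_le_mul_right (inner_le_frame (hv i) _ _) _)
    (fun k => by
      have := tendsto_finsetSum Finset.univ fun j _ => ENNReal.Tendsto.const_mul
        (a := ‖e j‖ₑ * M) (hz (f j) k).enorm (Or.inr (by finiteness))
      simpa using this) (T + 1)
  filter_upwards [ENNReal.tendsto_nhds_zero.mp t2 _ h2] with i hi w hw g hg hgd hgs
  refine (Psi_split hφ hg hgd T).trans ((add_le_add (le_trans (Finset.sum_le_sum fun s _ =>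
    av_mono (fun k => (hgs k).trans (Finset.sum_le_sum fun j _ => ?_)) s) hi) hT).trans
    (ENNReal.add_halves ε).le)
  exact mul_le_mul_left (inner_le_frame hw _ _) _

/-- approximation by finite rank operators for the weight `j` -/
def Apy (φ : ℕ → Fin n → ℝ) (j : Fin n) (K : H →L[ℂ] H) : Prop :=
  ∀ ε : ℝ≥0∞, 0 < ε → ∃ F r, Rk r F ∧ ‖K - F‖ₑ ≤ ε ∧ ∀ (M : ℝ≥0) (v w : (Fin n → ℝ) → H),
    Frame M v → Frame M w → Psi φ j (fun k => ‖⟪w k, (K - F) (v k)⟫_ℂ‖ₑ) ≤ M ^ 2 * ε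

theorem Apy.small {ι : Type} {l : Filter ι} [l.IsCountablyGenerated] (hφ : Wt φ θ)
    {K : H →L[ℂ] H} (hK : Apy φ j K) {v : ι → (Fin n → ℝ) → H} (hv : ∀ i, Frame M (v i))
    (hz : ∀ h k, Tendsto (fun i => ⟪h, v i k⟫_ℂ) l (𝓝 0)) {ε : ℝ≥0∞} (hε : 0 < ε) :
    ∀ᶠ i in l, ∀ w : (Fin n → ℝ) → H, Frame M w →
      Psi φ j (fun k => ‖⟪w k, K (v i k)⟫_ℂ‖ₑ) ≤ ε ∧
      Psi φ j (fun k => ‖⟪v i k, K (w k)⟫_ℂ‖ₑ) ≤ ε := by
  have h2 := ENNReal.half_pos hε.ne'
  obtain ⟨δ, hδ, hδ'⟩ := ENNReal.exists_nnreal_pos_mul_lt (a := (M : ℝ≥0∞) ^ 2) (by finiteness)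
    h2.ne'
  obtain ⟨F, r, hF, -, hΦ⟩ := hK δ (by exact_mod_cast hδ)
  obtain ⟨m, e, f, -, -, -, h⟩ := hF.decomp
  have hd : (M : ℝ≥0∞) ^ 2 * ‖F‖ₑ * r ≠ ∞ := by finiteness
  rw [mul_comm] at hδ'
  filter_upwards [decay' (j := j) hφ hv hz e f hd h2, decay' (j := j) hφ hv hz f e hd h2]
    with i h3 h4 w hw
  have hs := hv i
  constructor
  · refine (Psi_add (meas_pair hs hw _) fun k => split_pair K F _ _).trans
      ((add_le_add ((hΦ M _ _ hs hw).trans hδ'.le) ?_).trans (ENNReal.add_halves ε).le)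
    exact h3 w hw _ (meas_pair hs hw _) (lint_rank hs hw hF) fun k => h _ _
  · refine (Psi_add (meas_pair hw hs _) fun k => split_pair K F _ _).trans
      ((add_le_add ((hΦ M _ _ hw hs).trans hδ'.le) ?_).trans (ENNReal.add_halves ε).le)
    exact h4 w hw _ (meas_pair hw hs _) (lint_rank hw hs hF) fun k =>
      (h _ _).trans (le_of_eq (by simp only [mul_comm]))

theorem boundary (hφ : Wt φ θ) {K : H →L[ℂ] H}
    (hK : ∀ ε : ℝ≥0∞, 0 < ε → ∃ F r, Rk r F ∧ ‖K - F‖ₑ ≤ ε)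
    (hv : Frame M v) (hw : Frame M w) {ε : ℝ≥0∞} (hε : 0 < ε) :
    ∃ m : ℕ, ∫⁻ u in Q n, ‖⟪w (seg φ m 0 u), K (v (seg φ m 0 u))⟫_ℂ‖ₑ ≤ ε := by
  have h2 := ENNReal.half_pos hε.ne'
  obtain ⟨δ, hδ, hδ'⟩ := ENNReal.exists_nnreal_pos_mul_lt (a := (M : ℝ≥0∞) ^ 2) (by finiteness)
    h2.ne'
  obtain ⟨F, r, hF, hn⟩ := hK δ (by exact_mod_cast hδ)
  obtain ⟨η, hη, hη'⟩ := ENNReal.exists_nnreal_pos_mul_lt
    (a := (M : ℝ≥0∞) ^ 2 * ‖F‖ₑ * r) (by finiteness) h2.ne'
  obtain ⟨m, hm⟩ := exists_pow_lt_of_lt_one (show (0 : ℝ) < η by exact_mod_cast hη)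
    (show (2 : ℝ)⁻¹ < 1 by norm_num)
  refine ⟨m + 1, (lintegral_mono fun u => split_pair K F _ _).trans ?_⟩
  rw [lintegral_add_left (f := fun u => ‖⟪w (seg φ (m + 1) 0 u),
    (K - F) (v (seg φ (m + 1) 0 u))⟫_ℂ‖ₑ) ((meas_pair hv hw _).comp (seg_meas φ _ _))]
  refine (add_le_add (sq_le' fun u => (pair_le hv hw _ _).trans ?_)
    ((seg_le hφ (meas_pair hv hw F) m le_rfl).trans ?_)).trans (ENNReal.add_halves ε).le
  · exact (mul_le_mul_right hn _).trans (by rw [mul_comm]; exact hδ'.le)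
  · refine (mul_le_mul' ?_ (lint_rank hv hw hF)).trans hη'.le
    rw [← ENNReal.ofReal_coe_nnreal, ← inv_pow]
    exact ENNReal.ofReal_le_ofReal hm.le

end Pool.Agent.Work.MP_707689_an.N.G
end

-- merged part: Pool.Agent.Work.MP_707689_an.G.Approx
section
/-! Dyadic decomposition for general weights. -/

open MeasureTheory Set Filter Topology
open scoped ENNReal NNReal InnerProductSpace

namespace Pool.Agent.Work.MP_707689_an.N.G

variable {H : Type} [NormedAddCommGroup H] [InnerProductSpace ℂ H] [CompleteSpace H] {d : ℕ}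
  {φ : ℕ → Fin d → ℝ} {θ : ℝ} {j : Fin d}

theorem Wt.one_le (hφ : Wt φ θ) (m : ℕ) : 1 ≤ φ (m + 1) j / φ 1 j :=
  (one_le_div (hφ.pos 0 j)).2 (monotone_nat_of_le_succ (f := fun m => φ m j) (hφ.mono · j)
    (Nat.le_add_left 1 m))

theorem apy_of_seq (hφ : Wt φ θ) {K : H →L[ℂ] H} (F : ℕ → H →L[ℂ] H) (r r' : ℕ → ℕ)
    (hF : ∀ m, Rk (r m) (F m)) (hD : ∀ m, Rk (r' m) (F (m + 1) - F m))
    (hr : ∀ m, (r' m : ℝ) ≤ 3 * 2 ^ m) (hs : Summable fun m => ‖F (m + 1) - F m‖ * φ (m + 1) j)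
    (hl : Tendsto F atTop (𝓝 K)) : Apy φ j K := by
  intro ε hε
  have h0 : 0 < 1 - θ / 2 := by linarith [hφ.lt]
  have h0' := hφ.tpos
  have h1 := ENNReal.tendsto_ofReal (tendsto_sum_nat_add fun m =>
    (1 + 3 * (θ * (1 - θ / 2)⁻¹)) * (‖F (m + 1) - F m‖ * φ (m + 1) j))
  have h2 : Tendsto (fun m => ‖K - F m‖ₑ) atTop (𝓝 0) := by
    simpa using (hl.const_sub K).enorm
  rw [ENNReal.ofReal_zero] at h1
  obtain ⟨n, hn1, hn2⟩ := ((ENNReal.tendsto_nhds_zero.mp h1 ε hε).and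
    (ENNReal.tendsto_nhds_zero.mp h2 ε hε)).exists
  refine ⟨F n, r n, hF n, hn2, fun M v w hv hw => ?_⟩
  have hs' : Summable fun m => ‖F (m + n + 1) - F (m + n)‖ * φ (m + n + 1) j :=
    (summable_nat_add_iff (f := fun m => ‖F (m + 1) - F m‖ * φ (m + 1) j) n).mpr hs
  have hsum : HasSum (fun m => F (m + n + 1) - F (m + n)) (K - F n) := by
    rw [hasSum_iff_tendsto_nat_of_summable_norm ((hs'.div_const (φ 1 j)).of_nonneg_of_le
      (fun _ => norm_nonneg _) fun m => by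
        rw [mul_div_assoc]
        exact le_mul_of_one_le_right (norm_nonneg _) (hφ.one_le _))]
    have e : ∀ j, ∑ m ∈ Finset.range j, (F (m + n + 1) - F (m + n)) = F (j + n) - F n := by
      intro j
      simpa [add_right_comm] using Finset.sum_range_sub (fun m => F (m + n)) j
    simp only [e]
    exact (hl.comp (tendsto_add_atTop_nat n)).sub_const _
  have h3 : ∀ k, ‖⟪w k, (K - F n) (v k)⟫_ℂ‖ₑ ≤
      ∑' m, ‖⟪w k, (F (m + n + 1) - F (m + n)) (v k)⟫_ℂ‖ₑ := fun k => by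
    have := (hsum.mapL ((innerSL ℂ (w k)).comp (ContinuousLinearMap.apply ℂ H (v k)))).tsum_eq
    exact le_trans (le_of_eq (congrArg _ this.symm)) enorm_tsum_le_tsum_enorm
  refine (Psi_tsum (fun m => meas_pair hv hw _) h3).trans ?_
  refine (ENNReal.tsum_le_tsum fun m => Psi_rank hφ hv hw (hD (m + n)) (hr _)).trans ?_
  rw [ENNReal.tsum_mul_left, ← ENNReal.ofReal_tsum_of_nonneg
    (fun m => by have := hφ.pos (m + n) j; positivity) (hs'.mul_left _)]
  gcongr

omit [CompleteSpace H] in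
theorem sval_anti (K : H →L[ℂ] H) : Antitone (sval K) := fun k l hkl =>
  csInf_le_csInf ⟨0, by rintro _ ⟨F, -, rfl⟩; exact norm_nonneg _⟩ ⟨_, 0, by simp, rfl⟩
    fun _ ⟨F, hF, e⟩ => ⟨F, le_trans hF (by exact_mod_cast hkl), e⟩

theorem apy_of_dyadic (hφ : Wt φ θ) {K : H →L[ℂ] H}
    (h : Summable fun m : ℕ => sval K (2 ^ m) * φ (m + 1) j) : Apy φ j K := by
  have h0 := sval_nonneg K
  have hanti := sval_anti K
  have hex : ∀ m : ℕ, ∃ F : H →L[ℂ] H, Rk (2 ^ m) F ∧ ‖K - F‖ ≤ sval K (2 ^ m) + (1 / 4) ^ m := by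
    intro m
    obtain ⟨_, ⟨F, hF, rfl⟩, hlt⟩ := exists_lt_of_csInf_lt
      (s := {r : ℝ | ∃ F : H →L[ℂ] H, Rk (2 ^ m) F ∧ r = ‖K - F‖}) ⟨_, 0, by simp [Rk], rfl⟩
      (show sval K (2 ^ m) < sval K (2 ^ m) + (1 / 4) ^ m by simp)
    exact ⟨F, hF, hlt.le⟩
  choose F hF hFn using hex
  have hb : Summable fun m => (sval K (2 ^ m) + (1 / 4) ^ m) * φ (m + 1) j := by
    simp only [add_mul]
    refine h.add ((summable_geometric_two.mul_right (φ 1 j)).of_nonneg_of_le
      (fun m => by have := hφ.pos m j; positivity) fun m => ?_)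
    have h1 := hφ.pow (j := j) 0 m
    rw [zero_add, add_comm] at h1
    refine (mul_le_mul_of_nonneg_left h1 (by positivity)).trans ?_
    rw [← mul_assoc, ← mul_pow]
    exact mul_le_mul_of_nonneg_right (pow_le_pow_left₀ (by have := hφ.tpos; positivity)
      (by linarith [hφ.lt]) m) (hφ.pos 0 j).le
  refine apy_of_seq hφ F (fun m => 2 ^ m) (fun m => 2 ^ (m + 1) + 2 ^ m) hF
    (fun m => (hF _).sub (hF _)) (fun m => le_of_eq (by push_cast; ring))
    ((hb.mul_left 2).of_nonneg_of_le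
      (fun m => mul_nonneg (norm_nonneg _) (hφ.pos m j).le) fun m => ?_) ?_
  · rw [← mul_assoc]
    refine mul_le_mul_of_nonneg_right ?_ (hφ.pos m j).le
    have h1 : sval K (2 ^ (m + 1)) ≤ sval K (2 ^ m) :=
      hanti (Nat.pow_le_pow_right two_pos m.le_succ)
    have h2 : (1 / 4 : ℝ) ^ (m + 1) ≤ (1 / 4) ^ m :=
      pow_le_pow_of_le_one (by norm_num) (by norm_num) m.le_succ
    have h3 := norm_sub_le (K - F m) (K - F (m + 1))
    rw [sub_sub_sub_cancel_left] at h3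
    linarith [hFn m, hFn (m + 1)]
  · rw [tendsto_iff_norm_sub_tendsto_zero]
    refine squeeze_zero (fun _ => norm_nonneg _) (fun m => ?_)
      (hb.div_const (φ 1 j)).tendsto_atTop_zero
    rw [norm_sub_rev, mul_div_assoc]
    exact (hFn m).trans (le_mul_of_one_le_right (by have := h0 (2 ^ m); positivity) (hφ.one_le m))

theorem dyadic {s Φ : ℕ → ℝ} {θ : ℝ} (hs : Antitone s) (h0 : ∀ k, 0 ≤ s k) (hΦ : Monotone Φ)
    (hp : 0 ≤ Φ 1) (hθ : 0 ≤ θ) (hd : ∀ k, 1 ≤ k → Φ (2 * k) ≤ θ * Φ k)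
    (h : Summable fun k : ℕ => s k * Φ (k + 1) / ((k : ℝ) + 1)) :
    Summable fun m : ℕ => s (2 ^ m) * Φ (2 ^ m) := by
  have hp' : ∀ k, 1 ≤ k → 0 ≤ Φ k := fun k hk => hp.trans (hΦ hk)
  have hb : ∀ k : ℕ, 0 ≤ s k * Φ (k + 1) / ((k : ℝ) + 1) := fun k =>
    div_nonneg (mul_nonneg (h0 k) (hp' _ (Nat.le_add_left 1 k))) (by positivity)
  refine (summable_nat_add_iff 1).1 (summable_of_sum_range_le
    (c := 2 * θ * ∑' k : ℕ, s k * Φ (k + 1) / ((k : ℝ) + 1))
    (fun m => mul_nonneg (h0 _) (hp' _ Nat.one_le_two_pow)) fun N => le_trans ?_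
      (mul_le_mul_of_nonneg_left (h.sum_le_tsum (Finset.range (2 ^ N)) fun k _ => hb k)
        (by positivity)))
  induction N with
  | zero => simpa using mul_nonneg (mul_nonneg zero_le_two hθ) (by simpa using hb 0)
  | succ N ih =>
    rw [Finset.sum_range_succ, ← Finset.sum_range_add_sum_Ico _
      (Nat.pow_le_pow_right two_pos N.le_succ), mul_add]
    refine add_le_add ih ?_
    have h1 := Finset.card_nsmul_le_sum (Finset.Ico (2 ^ N) (2 ^ (N + 1)))
      (fun k : ℕ => s k * Φ (k + 1) / ((k : ℝ) + 1)) (s (2 ^ (N + 1)) * Φ (2 ^ N) / 2 ^ (N + 1))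
      fun k hk => by
        obtain ⟨h2, h3⟩ := Finset.mem_Ico.1 hk
        exact div_le_div₀ (mul_nonneg (h0 k) (hp' _ (Nat.le_add_left 1 k)))
          (mul_le_mul (hs h3.le) (hΦ (h2.trans k.le_succ)) (hp' _ Nat.one_le_two_pow) (h0 k))
          (by positivity) (by exact_mod_cast h3)
    refine le_trans ?_ (mul_le_mul_of_nonneg_left h1 (by positivity))
    have h4 := mul_le_mul_of_nonneg_left (hd (2 ^ N) Nat.one_le_two_pow) (h0 (2 ^ (N + 1)))
    rw [← pow_succ'] at h4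
    refine h4.trans (le_of_eq ?_)
    rw [Nat.card_Ico, pow_succ, Nat.mul_two, Nat.add_sub_cancel, nsmul_eq_mul]
    push_cast
    field_simp
    ring

theorem Apy.cpt {K : H →L[ℂ] H} (h : Apy φ j K) : K ∈ cpt H := by
  refine EMetric.mem_closure_iff.2 fun ε hε => ?_
  obtain ⟨δ, h0, h1⟩ := exists_between hε
  obtain ⟨F, r, hF, h2, -⟩ := h δ h0
  exact ⟨F, ⟨r, hF⟩, by rw [edist_eq_enorm_sub]; exact h2.trans_lt h1⟩

omit [CompleteSpace H] in
theorem Apy.neg {A B : H →L[ℂ] H} (h : Apy φ j (A - B)) : Apy φ j (B - A) := by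
  intro ε hε
  obtain ⟨F, r, hF, h1, h2⟩ := h ε hε
  have e : B - A - -F = -(A - B - F) := by abel
  refine ⟨-F, r, by simpa using hF.left (-1), by rwa [e, enorm_neg], fun M v w hv hw => ?_⟩
  simpa only [e, neg_apply, inner_neg_right, enorm_neg] using h2 M v w hv hw

end Pool.Agent.Work.MP_707689_an.N.G
end

-- merged part: Pool.Agent.Work.MP_707689_an.G.Key
section
/-! The basic estimate along the polygonal curves. -/

open MeasureTheory Set Filter Topology Complex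
open scoped ENNReal NNReal InnerProductSpace

namespace Pool.Agent.Work.MP_707689_an.N.G

variable {H : Type} [NormedAddCommGroup H] [InnerProductSpace ℂ H] [CompleteSpace H] {n : ℕ}
  {φ : ℕ → Fin n → ℝ} {θ : ℝ}

/-- the family `v` solves the evolution equation along the segments -/
def Flow (φ : ℕ → Fin n → ℝ) (A : Fin n → H →L[ℂ] H) (v : (Fin n → ℝ) → H) : Prop :=
  ∀ (m : ℕ) (u : Fin n → ℝ) (s : ℝ), HasDerivAt (fun s : ℝ => v (seg φ m s u))
    (I • ∑ j, (((φ (m + 1) j - φ m j) * u j : ℝ) : ℂ) • A j (v (seg φ m s u))) s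

theorem wt_le' {e y : ℝ} (he : 0 ≤ e) (hy : y ∈ Icc (0 : ℝ) 1) (p q : ℂ) :
    ‖((e * y : ℝ) : ℂ) * (p - q)‖ₑ ≤ ENNReal.ofReal e * (‖p‖ₑ + ‖q‖ₑ) := by
  rw [enorm_mul]
  refine mul_le_mul' ?_ enorm_sub_le
  rw [← ofReal_norm, norm_real, Real.norm_of_nonneg (mul_nonneg he hy.1)]
  exact ENNReal.ofReal_le_ofReal (mul_le_of_le_one_right he hy.2)

theorem key' (hφ : Wt φ θ)
    {A B : Fin n → H →L[ℂ] H} {U V : H →L[ℂ] H} (hA : ∀ j, IsSelfAdjoint (A j))
    (hc : ∀ j, Commute (B j) U)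
    (hK : ∀ ε : ℝ≥0∞, 0 < ε → ∃ F r, Rk r F ∧ ‖U - V - F‖ₑ ≤ ε) {M : ℝ≥0}
    {v w : (Fin n → ℝ) → H}
    (hv : Frame M v) (hw : Frame M w) (dv : Flow φ A v) (dw : Flow φ A w) {c₀ : ℂ}
    (hn : ∀ k, ⟪w k, V (v k)⟫_ℂ = c₀) :
    ‖⟪w 0, U (v 0)⟫_ℂ - c₀‖ₑ ≤ ∑ j,
      (Psi φ j (fun k => ‖⟪ContinuousLinearMap.adjoint U (w k), (A j - B j) (v k)⟫_ℂ‖ₑ) +
      Psi φ j (fun k => ‖⟪w k, (A j - B j) (U (v k))⟫_ℂ‖ₑ)) := by
  set α : (H →L[ℂ] H) → (Fin n → ℝ) → ℂ := fun K k =>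
    ⟪ContinuousLinearMap.adjoint U (w k), K (v k)⟫_ℂ with hα
  set β : (H →L[ℂ] H) → (Fin n → ℝ) → ℂ := fun K k => ⟪w k, K (U (v k))⟫_ℂ with hβ
  have cv := hv.cont
  have cw := hw.cont
  have ca : ∀ K, Continuous (α K) := fun K => by rw [hα]; fun_prop
  have cb : ∀ K, Continuous (β K) := fun K => by rw [hβ]; fun_prop
  set g : (H →L[ℂ] H) → (Fin n → ℝ) → ℝ≥0∞ := fun K k => ‖α K k‖ₑ + ‖β K k‖ₑ with hg
  have mg : ∀ K, Measurable (g K) := fun K => (ca _).measurable.enorm.add (cb _).measurable.enorm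
  set G : ℕ → ℝ → (Fin n → ℝ) → ℝ≥0∞ := fun m x u =>
    ∑ j, ENNReal.ofReal (φ (m + 1) j - φ m j) * g (A j - B j) (seg φ m x u) with hG
  have mG : ∀ m, Measurable fun z : ℝ × (Fin n → ℝ) => G m z.1 z.2 := fun m =>
    Finset.measurable_sum _ fun j _ => ((mg _).comp (seg_cont φ m).measurable).const_mul _
  set ψ : (Fin n → ℝ) → ℂ := fun k => ⟪w k, U (v k)⟫_ℂ with hψ
  have swap : ∀ j, ∀ x y : H, ⟪x, U (A j y)⟫_ℂ - ⟪A j x, U y⟫_ℂ =
      ⟪ContinuousLinearMap.adjoint U x, (A j - B j) y⟫_ℂ - ⟪x, (A j - B j) (U y)⟫_ℂ := by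
    intro j x y
    have e : B j (U y) = U (B j y) := congrArg (fun T : H →L[ℂ] H => T y) (hc j).eq
    simp only [ContinuousLinearMap.adjoint_inner_left, sa_inner (hA j), sub_apply,
      inner_sub_right, e]
    ring
  have step : ∀ u ∈ Q n, ∀ m : ℕ,
      ‖ψ (seg φ m 1 u) - ψ (seg φ m 0 u)‖ₑ ≤ ∫⁻ x in Ioc (0 : ℝ) 1, G m x u := by
    intro u hu m
    have cg : Continuous fun x : ℝ => seg φ m x u := (seg_cont φ m).comp (Continuous.prodMk_left u)
    have h1 := ftc_le (f := fun x : ℝ => ψ (seg φ m x u)) (f' := fun x : ℝ =>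
      I * ∑ j, (((φ (m + 1) j - φ m j) * u j : ℝ) : ℂ) *
        (α (A j - B j) (seg φ m x u) - β (A j - B j) (seg φ m x u))) (fun x => ?_)
      (continuous_const.mul (continuous_finsetSum _ fun j _ => by
        have := ca (A j - B j)
        have := cb (A j - B j)
        fun_prop)) 0 1
    · rw [uIoc_of_le zero_le_one] at h1
      refine h1.trans (lintegral_mono fun x => ?_)
      rw [enorm_mul, ← ofReal_norm I, norm_I, ENNReal.ofReal_one, one_mul]
      exact (enorm_sum_le _ _).trans (Finset.sum_le_sum fun j _ =>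
        wt_le' (sub_nonneg.2 (hφ.mono m j)) ⟨hu.1 j, hu.2 j⟩ _ _)
    · have h3 := (dw m u x).inner ℂ
        ((U.restrictScalars ℝ).hasFDerivAt.comp_hasDerivAt x (dv m u x))
      refine HasDerivAt.congr_deriv h3 ?_
      simp only [hα, hβ, ← swap, Function.comp, ContinuousLinearMap.coe_restrictScalars', map_smul,
        map_sum, inner_smul_left, inner_smul_right, inner_sum, sum_inner, conj_I, conj_ofReal,
        mul_sub, Finset.sum_sub_distrib]
      ring
  have ray : ∀ u ∈ Q n, ∀ m : ℕ, ‖ψ (seg φ m 0 u) - ψ 0‖ₑ ≤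
      ∑ i ∈ Finset.range m, ∫⁻ x in Ioc (0 : ℝ) 1, G i x u := by
    intro u hu m
    induction m with
    | zero =>
      have e : seg φ 0 0 u = 0 := funext fun j => by simp [seg, hφ.zero]
      simp [e]
    | succ m ih =>
      have e : seg φ (m + 1) 0 u = seg φ m 1 u := funext fun j => by simp [seg]
      rw [Finset.sum_range_succ, e, add_comm]
      exact le_trans (le_of_eq (by rw [sub_add_sub_cancel]))
        ((enorm_add_le _ _).trans (add_le_add (step u hu m) ih))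
  have mI : ∀ i, Measurable fun u => ∫⁻ x in Ioc (0 : ℝ) 1, G i x u := fun i =>
    Measurable.lintegral_prod_left' (f := fun z : ℝ × (Fin n → ℝ) => G i z.1 z.2) (mG i)
  refine le_trans (b := ∑ j, Psi φ j (g (A j - B j))) ?_
    (Finset.sum_le_sum fun j _ => Psi_add (ca _).measurable.enorm fun k => le_rfl)
  refine ENNReal.le_of_forall_pos_le_add fun δ hδ _ => ?_
  obtain ⟨s, hb⟩ := boundary hφ hK hv hw (ε := δ) (by exact_mod_cast hδ)
  calc _ = ∫⁻ _ in Q n, ‖ψ 0 - c₀‖ₑ := by simp [volQ, hψ]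
    _ ≤ ∫⁻ u in Q n, (‖⟪w (seg φ s 0 u), (U - V) (v (seg φ s 0 u))⟫_ℂ‖ₑ +
          ∑ i ∈ Finset.range s, ∫⁻ x in Ioc (0 : ℝ) 1, G i x u) := by
        refine setLIntegral_mono' measQ fun u hu => le_trans ?_ (add_le_add le_rfl (ray u hu s))
        rw [sub_apply, inner_sub_right, hn, enorm_sub_rev (ψ (seg φ s 0 u)) (ψ 0), add_comm]
        exact le_trans (le_of_eq (by rw [sub_add_sub_cancel])) (enorm_add_le _ _)
    _ = (∫⁻ u in Q n, ‖⟪w (seg φ s 0 u), (U - V) (v (seg φ s 0 u))⟫_ℂ‖ₑ) +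
          ∑ i ∈ Finset.range s, ∫⁻ x in Ioc (0 : ℝ) 1, ∫⁻ u in Q n, G i x u := by
        rw [lintegral_add_left (f := fun u => ‖⟪w (seg φ s 0 u), (U - V) (v (seg φ s 0 u))⟫_ℂ‖ₑ)
          ((meas_pair hv hw _).comp (seg_meas φ s 0)), lintegral_finsetSum _ fun i _ => mI i]
        congr 1
        exact Finset.sum_congr rfl fun i _ =>
          (lintegral_lintegral_swap (f := G i) (mG i).aemeasurable).symm
    _ ≤ _ := by
        rw [add_comm]
        refine add_le_add ?_ hb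
        refine le_trans (le_of_eq ?_) (Finset.sum_le_sum fun j _ =>
          ENNReal.sum_le_tsum (f := av φ j (g (A j - B j))) (Finset.range s))
        rw [Finset.sum_comm]
        refine Finset.sum_congr rfl fun i _ => ?_
        simp only [av]
        rw [Finset.sum_congr rfl fun j _ => (lintegral_const_mul _ (in_meas (mg (A j - B j)) i)).symm,
          ← lintegral_finsetSum _ fun j _ => (in_meas (mg (A j - B j)) i).const_mul _]
        refine lintegral_congr fun x => ?_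
        rw [hG, lintegral_finsetSum (f := fun j u => ENNReal.ofReal (φ (i + 1) j - φ i j) *
          g (A j - B j) (seg φ i x u)) _ fun j _ => ((mg _).comp (seg_meas φ i x)).const_mul _]
        exact Finset.sum_congr rfl fun j _ => lintegral_const_mul
          (f := fun u => g (A j - B j) (seg φ i x u)) _ ((mg _).comp (seg_meas φ i x))

end Pool.Agent.Work.MP_707689_an.N.G
end

-- merged part: Pool.Agent.Work.MP_707689_an.G.Main
section
/-! The wave operator for general weights. -/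

open MeasureTheory Set Filter Topology Complex
open scoped ENNReal NNReal InnerProductSpace ComplexConjugate Real

namespace Pool.Agent.Work.MP_707689_an.N.G

variable {H : Type} [NormedAddCommGroup H] [InnerProductSpace ℂ H] [CompleteSpace H] {n : ℕ}
  {A B : Fin n → H →L[ℂ] H} {E E' : Set (Fin n → ℝ) → H →L[ℂ] H}
  {μ μ' : H → Measure (Fin n → ℝ)} {ι κ : Type} {l : Filter ι} {l' : Filter κ}
  {f : ι → (Fin n → ℝ) → ℂ} {g : κ → (Fin n → ℝ) → ℂ} {S T : ι → H →L[ℂ] H}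
  {S' T' : κ → H →L[ℂ] H} {q : ℕ → Fin n → ℝ} {θ : ℝ}

theorem flow (h : Sp A E μ) (ξ : H) : Flow q A fun k => Ex A k ξ := by
  intro m u s
  have d1 : HasDerivAt (fun t : ℝ => (I * ((1 : ℝ) : ℂ)) •
      ∑ j, (((seg q m t u - seg q m s u) j : ℝ) : ℂ) • A j)
      ((I * ((1 : ℝ) : ℂ)) • ∑ j, (((q (m + 1) j - q m j) * u j : ℝ) : ℂ) • A j) s := by
    refine HasDerivAt.const_smul (I * ((1 : ℝ) : ℂ)) (HasDerivAt.fun_sum fun j _ => ?_)
    refine HasDerivAt.smul_const (HasDerivAt.ofReal_comp ?_) (A j)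
    exact (((hasDerivAt_mul_const (q (m + 1) j - q m j)).const_add (q m j)).mul_const
      (u j)).sub_const _
  have d2 := (hasFDerivAt_exp_zero (𝕂 := ℝ) (𝔸 := H →L[ℂ] H)).comp_hasDerivAt_of_eq s d1 (by simp)
  have e : ∀ t, Ex A (seg q m t u) ξ = Ex A (seg q m t u - seg q m s u) (Ex A (seg q m s u) ξ) :=
    fun t => by rw [← mul_apply_eq_comp, ← h.add, sub_add_cancel]
  rw [funext e]
  refine (deriv_app d2 _).congr_deriv ?_
  simp

theorem cauchy' [l.IsCountablyGenerated] [l'.IsCountablyGenerated] (hq : Wt q θ)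
    (h : Sp A E μ) (h' : Sp B E' μ')
    (hK : ∀ j, Apy q j (A j - B j)) (hf : Fam E μ μ' l f S T) (hg : Fam E μ μ' l' g S' T')
    {x : H} (hx : x ∈ acS E) {ε : ℝ} (hε : 0 < ε) :
    ∀ᶠ z in l ×ˢ l', ‖star (T z.1) (S z.1 x) - star (T' z.2) (S' z.2 x)‖ ≤ ε := by
  obtain ⟨ξ, hξ, M, h1, hv⟩ := h.frame hx (ε := ε / 3) (by positivity)
  obtain ⟨η, hη, hη'⟩ := ENNReal.exists_nnreal_pos_mul_lt (a := 2 * n)
    (b := ENNReal.ofReal ((ε / 3) ^ 2 / 2)) (by finiteness)
    (ENNReal.ofReal_pos.mpr (by positivity)).ne'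
  have h0 : (0 : ℝ≥0∞) < η := by exact_mod_cast hη
  have fl : ∀ {φ : (Fin n → ℝ) → ℂ} {U : H →L[ℂ] H}, IC μ φ U →
      Flow q A fun k => U (Ex A k ξ) := fun {φ U} hU => by
    have e : ∀ k, U (Ex A k ξ) = Ex A k (U ξ) := fun k =>
      DFunLike.congr_fun (h.pv.comm hU (h.ch k)).eq ξ
    simpa only [e] using flow h (U ξ)
  have nf := fun y k => h.pv.null hf.iS hf.null (h.pv.map_ac (h.ch k) hξ) y
  have ng := fun y k => h.pv.null hg.iS hg.null (h.pv.map_ac (h.ch k) hξ) y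
  have ff := fun i => hv.map (le_of_unit (h.pv.unit (hf.iS i) (hf.one i)).1)
  have fg := fun j => hv.map (le_of_unit (h.pv.unit (hg.iS j) (hg.one j)).1)
  filter_upwards [(eventually_all.2 fun j => (hK j).small hq ff nf h0).prod_mk
    (eventually_all.2 fun j => (hK j).small hq fg ng h0)] with z hz
  obtain ⟨s1, s2⟩ := hz
  have uf := h'.pv.unit (hf.iT z.1) (hf.one z.1)
  have ug := h'.pv.unit (hg.iT z.2) (hg.one z.2)
  have vf := h.pv.unit (hf.iS z.1) (hf.one z.1)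
  have vg := h.pv.unit (hg.iS z.2) (hg.one z.2)
  set U := T' z.2 * star (T z.1) with hU
  have hU1 : ‖U‖ ≤ 1 := le_of_unit (by
    rw [hU, star_mul, star_star, mul_assoc, ← mul_assoc (star _), ug.1, one_mul, uf.2])
  have f1 := (fg z.2).map (U := ContinuousLinearMap.adjoint U) (by simpa using hU1)
  have f2 := (ff z.1).map hU1
  have h2 := (key' hq (fun j => (h.int j).sa)
    (fun j => h'.pv.comm (h'.int j) (h'.pv.mul (hg.iT z.2) (hf.iT z.1).star))
    (V := S' z.2 * star (S z.1)) (cpt_apx (by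
      rw [← neg_sub]
      exact neg_mem (cpt_mul (hg.cp _) (cpt_star vf.1 uf.2 (hf.cp _)))))
    (ff z.1) (fg z.2) (fl (hf.iS _)) (fl (hg.iS _)) (c₀ := ⟪ξ, ξ⟫_ℂ) (fun k => by
      rw [mul_apply_eq_comp, ← mul_apply_eq_comp (star _), vf.1,
        one_apply_eq_self, inner_self_eq_norm_sq_to_K, inner_self_eq_norm_sq_to_K,
        norm_of_unit vg.1, norm_of_unit (h.pv.unit (h.ch k) (ch_norm k)).1])).trans
    ((Finset.sum_le_sum fun j _ => add_le_add (s1 j _ f1).1 (s2 j _ f2).2).trans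
      (le_trans (le_of_eq (by simp; ring)) hη'.le))
  rw [← ofReal_norm, ENNReal.ofReal_le_ofReal_iff (by positivity), Ex_zero, one_apply_eq_self,
    mul_apply_eq_comp, ← star_inner] at h2
  have nf1 := unit_norm vf.1 uf.2
  have ng1 := unit_norm vg.1 ug.2
  have h3 : ‖star (T z.1) (S z.1 ξ) - star (T' z.2) (S' z.2 ξ)‖ ≤ ε / 3 := by
    refine le_of_sq_le_sq ?_ (by positivity)
    rw [norm_sub_rev, norm_sub_sq (𝕜 := ℂ), nf1, ng1]
    have h4 := (abs_le.mp ((RCLike.abs_re_le_norm (K := ℂ) _).trans h2)).1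
    rw [map_sub, inner_self_eq_norm_sq] at h4
    linarith
  have h5 := dist_triangle4 (star (T z.1) (S z.1 x)) (star (T z.1) (S z.1 ξ))
    (star (T' z.2) (S' z.2 ξ)) (star (T' z.2) (S' z.2 x))
  rw [dist_comm (star (T' z.2) (S' z.2 ξ))] at h5
  simp only [dist_eq_norm, ← map_sub, nf1, ng1] at h5
  linarith

theorem wave0 (j₀ : Fin n) (hq : Wt q θ)
    (h : Sp A E μ) (h' : Sp B E' μ') (hK : ∀ j, Apy q j (A j - B j)) : ∃ W : H →L[ℂ] H,
      (∀ (ι : Type) (l : Filter ι) [l.IsCountablyGenerated] (f : ι → (Fin n → ℝ) → ℂ)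
        (S T : ι → H →L[ℂ] H), Fam E μ μ' l f S T →
        ∀ x ∈ acS E, Tendsto (fun i => star (T i) (S i x)) l (𝓝 (W x))) ∧
      (∀ x ∈ acS E, ‖W x‖ = ‖x‖ ∧ ∀ j, W (A j x) = B j (W x)) ∧
      ∀ x ∈ acS E, W x ∈ acS E' := by
  have hC := fun j => (hK j).cpt
  have F := fam_ch h h' hC j₀
  have u := fun t => h'.pv.unit (F.iT t) (F.one t)
  have v := fun t => h.pv.unit (F.iS t) (F.one t)
  have ex1 : ∀ x : H, ∃ y, Tendsto (fun t : ℝ => star (Ex B (Pi.single j₀ t))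
      (Ex A (Pi.single j₀ t) ((acS E).starProjection x))) atTop (𝓝 y) := fun x => by
    rw [← cauchy_map_iff_exists_tendsto, cauchy_map_iff',
      Metric.uniformity_basis_dist_le.tendsto_right_iff]
    intro ε hε
    simpa only [mem_ofPred_eq, dist_eq_norm] using cauchy' hq h h' hK F F
      ((acS E).starProjection_apply_mem x) hε
  choose w hw using ex1
  have hw' : ∀ x ∈ acS E, Tendsto (fun t : ℝ => star (Ex B (Pi.single j₀ t))
      (Ex A (Pi.single j₀ t) x)) atTop (𝓝 (w x)) :=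
    fun x hx => by simpa only [Submodule.starProjection_eq_self_iff.2 hx] using hw x
  have int : ∀ {φ : (Fin n → ℝ) → ℂ} {U V : H →L[ℂ] H}, IC μ φ U → IC μ' φ V →
      U - V ∈ cpt H → ∀ x ∈ acS E, w (U x) = V (w x) := by
    intro φ U V c1 c2 hK x hx
    refine tendsto_nhds_unique (hw' _ (h.pv.map_ac c1 hx)) ?_
    have t1 := cpt_strong hK (norm_nonneg x) (fun t : ℝ => norm_of_unit (v t).1 x)
      (h.pv.null F.iS F.null hx)
    have t2 : Tendsto (fun t : ℝ => star (Ex B (Pi.single j₀ t))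
        ((U - V) (Ex A (Pi.single j₀ t) x))) atTop (𝓝 0) := by
      rw [tendsto_zero_iff_norm_tendsto_zero] at t1 ⊢
      refine t1.congr fun t => (norm_of_unit ?_ _).symm
      rw [star_star, (u t).2]
    have t3 := ((V.continuous.tendsto _).comp (hw' x hx)).add t2
    rw [add_zero] at t3
    refine t3.congr fun t => ?_
    have e1 : U (Ex A (Pi.single j₀ t) x) = Ex A (Pi.single j₀ t) (U x) :=
      DFunLike.congr_fun (h.pv.comm c1 (h.ch _)).eq x
    have e2 : ∀ y, V (star (Ex B (Pi.single j₀ t)) y) = star (Ex B (Pi.single j₀ t)) (V y) :=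
      fun y => DFunLike.congr_fun (h'.pv.comm c2 (h'.ch _).star).eq y
    simp [e1, e2]
  have iso : ∀ x ∈ acS E, ∀ y ∈ acS E, ⟪w x, w y⟫_ℂ = ⟪x, y⟫_ℂ := fun x hx y hy => by
    refine tendsto_nhds_unique ((hw' x hx).inner (hw' y hy)) (tendsto_const_nhds.congr fun t => ?_)
    rw [star_inner, ← mul_apply_eq_comp (Ex B _), (u t).2, one_apply_eq_self,
      ← star_star (Ex A _), star_inner, star_star, ← mul_apply_eq_comp, (v t).1, one_apply_eq_self]
  refine ⟨continuousLinearMapOfTendsto (fun t : ℝ => star (Ex B (Pi.single j₀ t)) *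
    Ex A (Pi.single j₀ t) * (acS E).starProjection) (f := w) (tendsto_pi_nhds.2 hw),
    fun ι l _ f S T hf x hx => ?_,
    fun x hx => ⟨?_, fun j => int (h.int j) (h'.int j) (hC j) x hx⟩, fun x hx => ?_⟩
  · rw [Metric.nhds_basis_closedBall.tendsto_right_iff]
    intro ε hε
    filter_upwards [(cauchy' hq h h' hK hf F hx hε).curry] with i hi
    rw [Metric.mem_closedBall, dist_eq_norm]
    exact le_of_tendsto ((hw' x hx).const_sub _).norm hi
  · refine tendsto_nhds_unique (hw' x hx).norm ?_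
    simp only [fun t => unit_norm (v t).1 (u t).2 x]
    exact tendsto_const_nhds
  · have := h.pv.fin x
    have := h'.pv.fin (w x)
    have e : μ' (w x) = μ x := Measure.ext_of_charFunDual (funext fun L => by
      have e1 : ∀ p : Fin n → ℝ, cexp (L p * I) = ch (fun j => L (Pi.single j 1)) p := fun p => by
        have e2 : L p = ∑ j, L (Pi.single j 1) * p j := by
          conv_lhs => rw [pi_eq_sum_univ' p, map_sum]
          exact Finset.sum_congr rfl fun j _ => by rw [map_smul, smul_eq_mul, mul_comm]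
        rw [ch, e2, mul_comm]
      simp only [charFunDual_apply, e1]
      rw [← (h'.ch _).eq, ← (h.ch _).eq, ← int (h.ch _) (h'.ch _) (Ex_cpt hC _) x hx,
        iso x hx _ (h.pv.map_ac (h.ch _) hx)])
    intro S hS h0
    have h1 := h'.pv.app (w x) S hS
    rw [e, h.pv.ac hx h0] at h1
    change E' S (w x) = 0
    simpa using h1.symm

theorem wave1 {Φ : Fin n → ℕ → ℝ} (hθ : θ < 2) (hm : ∀ j, Monotone (Φ j))
    (hp : ∀ j, 0 ≤ Φ j 1) (hd : ∀ j k, 1 ≤ k → Φ j (2 * k) ≤ θ * Φ j k)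
    (hs : ∀ k : ℕ, 1 ≤ k → (k : ℝ) ≤ ∏ j, Φ j k)
    (hK : ∀ j, Summable fun k : ℕ => sv (A j - B j) k * Φ j (k + 1) / ((k : ℝ) + 1))
    (hE : IsSpec A E) (hE' : IsSpec B E') : ∃ W : H →L[ℂ] H,
      (∀ (ι : Type) (l : Filter ι) [l.IsCountablyGenerated] (f : ι → (Fin n → ℝ) → ℂ)
        (S T : ι → H →L[ℂ] H), (∀ i, Measurable (f i)) → (∀ i y, ‖f i y‖ = 1) →
        (∀ g : (Fin n → ℝ) → ℂ, Integrable g → Tendsto (fun i => ∫ y, f i y * g y) l (𝓝 0)) →
        (∀ i, IsInt E (f i) (S i)) → (∀ i, IsInt E' (f i) (T i)) →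
        ∀ x, AC E x → Tendsto (fun i => star (T i) (S i x)) l (𝓝 (W x))) ∧
      (∀ x, AC E x → ‖W x‖ = ‖x‖ ∧ ∀ j, W (A j x) = B j (W x)) ∧
      W '' {x | AC E x} = {y | AC E' y} := by
  obtain ⟨j₀⟩ : Nonempty (Fin n) := by
    by_contra h0
    have := not_nonempty_iff.1 h0
    have h1 := hs 2 one_le_two
    rw [Finset.univ_eq_empty, Finset.prod_empty] at h1
    norm_num at h1
  have hp1 : ∀ j, 0 < Φ j 1 := fun j => (hp j).lt_of_ne' fun h0 => by
    have h1 := hs 1 le_rfl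
    rw [Finset.prod_eq_zero (Finset.mem_univ j) h0] at h1
    norm_num at h1
  have hp2 : ∀ j m, 0 < Φ j (2 ^ m) := fun j m => (hp1 j).trans_le (hm j Nat.one_le_two_pow)
  have ht : 0 < θ := (mul_pos_iff_of_pos_right (hp1 j₀)).1
    (((hp1 j₀).trans_le (hm j₀ one_le_two)).trans_le (hd j₀ 1 le_rfl))
  let q : ℕ → Fin n → ℝ := fun m => Nat.casesOn m 0 fun m j => Φ j (2 ^ m)
  have hq : Wt q θ := ⟨rfl, fun m j => by
      cases m with
      | zero => exact (hp2 j 0).le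
      | succ m => exact hm j (Nat.pow_le_pow_right two_pos m.le_succ), fun m j => hp2 j m,
    fun m j => by
      have h1 := hd j (2 ^ m) Nat.one_le_two_pow
      rwa [← pow_succ'] at h1, hθ, ht,
    fun m => by simpa using hs (2 ^ m) Nat.one_le_two_pow⟩
  have k : ∀ j, Apy q j (A j - B j) := fun j => apy_of_dyadic hq
    (dyadic (sval_anti _) (sval_nonneg _) (hm j) (hp j) ht.le (hd j) (hK j))
  obtain ⟨μ, h, m⟩ := hE.sp
  obtain ⟨μ', h', m'⟩ := hE'.sp
  obtain ⟨W, h1, h2, h3⟩ := wave0 j₀ hq h h' k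
  obtain ⟨W', g1, -, g3⟩ := wave0 j₀ hq h' h fun j => (k j).neg
  refine ⟨W, fun ι l _ f S T c1 c2 c3 iS iT x hx => ?_, h2,
    Subset.antisymm ?_ fun y hy => ⟨W' y, g3 y hy, ?_⟩⟩
  · refine tendsto_iff_seq_tendsto.2 fun u hu => borel h h' (fun j => (k j).cpt) (h1 ℕ atTop) h3
      (f := fun i => f (u i)) (S := fun i => S (u i)) (T := fun i => T (u i))
      (fun i => ⟨c1 _, fun z => (iS _ z _ (m z)).1, fun z => (iS _ z _ (m z)).2⟩)
      (fun i => ⟨c1 _, fun z => (iT _ z _ (m' z)).1, fun z => (iT _ z _ (m' z)).2⟩)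
      (fun i => c2 _) (fun z hz => ?_) hx
    have := h.pv.fin z
    refine ((c3 (fun y => (((μ z).rnDeriv volume y).toReal : ℂ))
      (Measure.integrable_toReal_rnDeriv.ofReal)).comp hu).congr fun i => ?_
    rw [← integral_rnDeriv_smul (h.pv.ac hz)]
    simp only [Function.comp, real_smul, mul_comm]
  · rintro _ ⟨x, hx, rfl⟩
    exact h3 x hx
  · have F := fam_ch h h' (fun j => (k j).cpt) j₀
    refine tendsto_nhds_unique (h1 _ _ _ _ _ F _ (g3 y hy)) ?_
    have t := g1 _ _ _ _ _ (fam_ch h' h (fun j => (k j).neg.cpt) j₀) y hy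
    rw [tendsto_iff_norm_sub_tendsto_zero] at t ⊢
    refine t.congr fun t => ?_
    have u := h'.pv.unit (F.iT t) (F.one t)
    have v := h.pv.unit (F.iS t) (F.one t)
    rw [← unit_norm v.1 u.2, map_sub, map_sub, ← mul_apply_eq_comp (Ex A _), v.2,
      one_apply_eq_self, ← mul_apply_eq_comp, u.1, one_apply_eq_self, norm_sub_rev]

end Pool.Agent.Work.MP_707689_an.N.G
end
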